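import Pool.Agent.H35.K2S.Avg
import Pool.Agent.H45.KAL.MKC

/-!
# Pieces on which a label is visible

If a label has small entropy given the point, then there is an event of positive probability on
which the label is a function of the point and on which a given conditional entropy is not larger
than on average.
-/

set_option autoImplicit false

namespace Pool.K2S

open Finset Real
open Pool.Agent.H49.Ent Pool.Agent.H32.Dense Pool.STK Pool.KA

variable {Ω S S' T U V : Type} [Fintype Ω]

namespace Piece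

/-- One value of a variable. -/
theorem law_CH_le {p : Ω → ℝ} (hp : ∀ ω, 0 ≤ p ω) (X : Ω → S) (Y : Ω → T) (Z : Ω → U) (z : U) :
    law p Z z * CH (Pool.Agent.H49.Ent.cond p Z z) X Y ≤ CH p X Y := by
  classical
  have h1 : CH p X (fun ω => (Y ω, Z ω)) ≤ CH p X Y :=
    CH_mono_cond hp fun ω ω' _ _ e => (Prod.ext_iff.mp e).1
  refine le_trans ?_ h1
  by_cases hz : z ∈ univ.image Z
  · rw [Pool.KS3.MKC.CH_pair_eq_sum hp X Y Z]
    refine Finset.single_le_sum (f := fun z => law p Z z *
      CH (Pool.Agent.H49.Ent.cond p Z z) X Y) (fun z' _ => ?_) hz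
    exact mul_nonneg (law_nonneg hp Z z') (CH_nonneg (cond_nonneg hp Z z') X Y)
  · rw [law_eq_zero_of_notMem p Z hz, zero_mul]
    exact CH_nonneg hp _ _

/-- The event that a variable has a given value. -/
theorem law_val (p : Ω → ℝ) (Z : Ω → U) (z : U) : Pe p (fun ω => Z ω = z) = law p Z z := by
  classical
  rw [Pe_eq, law_eq_sum]

theorem cond_val (p : Ω → ℝ) (Z : Ω → U) (z : U) :
    Pool.Agent.H49.Ent.cond p (fun ω => Z ω = z) True = Pool.Agent.H49.Ent.cond p Z z := by
  classical
  funext ω
  have h1 : law p (fun ω => Z ω = z) True = law p Z z := law_val p Z z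
  unfold Pool.Agent.H49.Ent.cond
  rw [h1]
  by_cases h : Z ω = z
  · rw [if_pos h, if_pos (eq_true h)]
  · rw [if_neg h, if_neg (fun h' => h (of_eq_true h'))]

theorem cond_cond {p : Ω → ℝ} {A B : Ω → Prop} (h : Sub B A) (hA : Pe p A ≠ 0) :
    Pool.Agent.H49.Ent.cond (Pool.Agent.H49.Ent.cond p A True) B True =
      Pool.Agent.H49.Ent.cond p B True := by
  classical
  have e1 : Pe (Pool.Agent.H49.Ent.cond p A True) B = Pe p B / Pe p A := by
    rw [Pe_cond]
    congr 1
    congr 1
    funext ω
    exact propext ⟨fun h' => h'.2, fun h' => ⟨h ω h', h'⟩⟩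
  have e2 : law (Pool.Agent.H49.Ent.cond p A True) B True = law p B True / law p A True := e1
  funext ω
  unfold Pool.Agent.H49.Ent.cond at e2 ⊢
  by_cases hB : B ω = True
  · have hAω : A ω = True := eq_true (h ω (of_eq_true hB))
    rw [if_pos hB, if_pos hB, if_pos hAω, e2, div_div_div_cancel_right₀ hA]
  · rw [if_neg hB, if_neg hB]

theorem cond_inter {p : Ω → ℝ} {A B : Ω → Prop} (hA : Pe p A ≠ 0) :
    Pool.Agent.H49.Ent.cond (Pool.Agent.H49.Ent.cond p A True) B True =
      Pool.Agent.H49.Ent.cond p (fun ω => A ω ∧ B ω) True := by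
  classical
  have e2 : law (Pool.Agent.H49.Ent.cond p A True) B True =
      law p (fun ω => A ω ∧ B ω) True / law p A True := Pe_cond B
  funext ω
  unfold Pool.Agent.H49.Ent.cond at e2 ⊢
  by_cases hAω : A ω = True
  · by_cases hB : B ω = True
    · have h1 : (A ω ∧ B ω) = True := eq_true ⟨of_eq_true hAω, of_eq_true hB⟩
      rw [if_pos hB, if_pos hAω, e2, div_div_div_cancel_right₀ hA]
      exact (if_pos h1).symm
    · have h1 : ¬ ((A ω ∧ B ω) = True) := fun h' => hB (eq_true (of_eq_true h').2)
      rw [if_neg hB]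
      exact (if_neg h1).symm
  · have h1 : ¬ ((A ω ∧ B ω) = True) := fun h' => hAω (eq_true (of_eq_true h').1)
    rw [if_neg hAω, zero_div]
    refine Eq.trans ?_ (if_neg h1).symm
    split_ifs <;> rfl

/-- Subevents. -/
theorem CH_sub {p : Ω → ℝ} (hp : IsLaw p) {A B : Ω → Prop} (h : Sub B A) (hA : 0 < Pe p A)
    (X : Ω → S) (Y : Ω → T) :
    Pe p B * CH (Pool.Agent.H49.Ent.cond p B True) X Y ≤
      Pe p A * CH (Pool.Agent.H49.Ent.cond p A True) X Y := by
  have h1 := law_CH_le (isLaw_cond hp hA).nonneg X Y B True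
  rw [cond_cond h hA.ne'] at h1
  have e1 : law (Pool.Agent.H49.Ent.cond p A True) B True = Pe p B / Pe p A := by
    have e2 := Pe_cond (p := p) (A := A) B
    refine e2.trans ?_
    congr 1
    congr 1
    funext ω
    exact propext ⟨fun h' => h'.2, fun h' => ⟨h ω h', h'⟩⟩
  rw [e1, div_mul_eq_mul_div, div_le_iff₀ hA] at h1
  linarith

open Classical in
/-- The likely values of `c` given `g = t`. -/
noncomputable def big (q : Ω → ℝ) (c : Ω → S) (g : Ω → T) (L : ℝ) (t : T) : Finset S :=
  (univ.image c).filter fun s => Real.exp (-L) * law q g t ≤ law q (fun ω => (c ω, g ω)) (s, t)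

theorem law_pair_sum (q : Ω → ℝ) (c : Ω → S) (g : Ω → T) (t : T) [DecidableEq S] :
    ∑ s ∈ univ.image c, law q (fun ω => (c ω, g ω)) (s, t) = law q g t := by
  classical
  unfold law
  rw [Finset.sum_comm]
  refine Finset.sum_congr rfl fun ω _ => ?_
  by_cases h : g ω = t
  · rw [if_pos h]
    rw [Finset.sum_eq_single (c ω)]
    · rw [if_pos (show (c ω, g ω) = (c ω, t) by rw [h])]
    · intro s _ hs
      rw [if_neg]
      intro h'
      exact hs (Prod.ext_iff.mp h').1.symm
    · intro h'
      exact absurd (Finset.mem_image_of_mem c (Finset.mem_univ ω)) h'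
  · rw [if_neg h]
    refine Finset.sum_eq_zero fun s _ => ?_
    rw [if_neg]
    intro h'
    exact h (Prod.ext_iff.mp h').2

theorem big_card {q : Ω → ℝ} (hq : ∀ ω, 0 ≤ q ω) (c : Ω → S) (g : Ω → T) {L : ℝ} {t : T}
    (ht : 0 < law q g t) : ((big q c g L t).card : ℝ) ≤ Real.exp L := by
  classical
  have h1 : ∑ s ∈ big q c g L t, Real.exp (-L) * law q g t ≤
      ∑ s ∈ big q c g L t, law q (fun ω => (c ω, g ω)) (s, t) := by
    refine Finset.sum_le_sum fun s hs => ?_
    exact (Finset.mem_filter.mp hs).2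
  have h2 : ∑ s ∈ big q c g L t, law q (fun ω => (c ω, g ω)) (s, t) ≤
      ∑ s ∈ univ.image c, law q (fun ω => (c ω, g ω)) (s, t) :=
    Finset.sum_le_sum_of_subset_of_nonneg (Finset.filter_subset _ _)
      fun s _ _ => law_nonneg hq _ _
  rw [law_pair_sum] at h2
  rw [Finset.sum_const, nsmul_eq_mul] at h1
  have h3 := h1.trans h2
  rw [← mul_assoc] at h3
  have h4 : ((big q c g L t).card : ℝ) * Real.exp (-L) ≤ 1 := by
    by_contra hcon
    push Not at hcon
    have := mul_lt_mul_of_pos_right hcon ht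
    linarith
  rw [Real.exp_neg, ← div_eq_mul_inv, div_le_one (Real.exp_pos L)] at h4
  exact h4

end Piece

open Piece in
/-- **Pieces.** -/
theorem exists_piece {q : Ω → ℝ} (hq : IsLaw q) (c : Ω → S) (g : Ω → T) {δ ε h : ℝ}
    (hε : 0 < ε) (hε1 : 2 * ε < 1) (hc : CH q c g ≤ δ) (hδ : 0 < δ) (X : Ω → U) (Y : Ω → V)
    (hX : CH q X Y ≤ h) :
    ∃ B : Ω → Prop, ε / (Real.exp (δ / ε) + 1) ≤ Pe q B ∧
      (∀ ω ω', B ω → B ω' → g ω = g ω' → c ω = c ω') ∧
      CH (Pool.Agent.H49.Ent.cond q B True) X Y ≤ h / (1 - 2 * ε) := by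
  classical
  have h0 := hq.nonneg
  obtain ⟨L, hL⟩ : ∃ L, L = δ / ε := ⟨_, rfl⟩
  have hL0 : 0 < L := by rw [hL]; positivity
  obtain ⟨M, hM⟩ : ∃ M, M = ⌊Real.exp L⌋₊ := ⟨_, rfl⟩
  have hM1 : 1 ≤ M := by
    rw [hM]
    exact Nat.le_floor (by push_cast; exact Real.one_le_exp hL0.le)
  have hMr : (0 : ℝ) < M := by exact_mod_cast hM1
  have hMe : (M : ℝ) ≤ Real.exp L := by rw [hM]; exact Nat.floor_le (Real.exp_pos _).le
  obtain ⟨cd, hcd⟩ : ∃ cd : Ω → ℕ, cd = fun ω =>
      if law q (fun ω => (c ω, g ω)) (c ω, g ω) < Real.exp (-L) * law q g (g ω) then M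
      else ((big q c g L (g ω)).toList.idxOf (c ω)) := ⟨_, rfl⟩
  -- the values of the code
  have hin : ∀ ω, ¬ law q (fun ω => (c ω, g ω)) (c ω, g ω) < Real.exp (-L) * law q g (g ω) →
      c ω ∈ (big q c g L (g ω)).toList := by
    intro ω hω
    rw [Finset.mem_toList]
    unfold big
    rw [Finset.mem_filter]
    exact ⟨Finset.mem_image_of_mem c (Finset.mem_univ ω), not_lt.mp hω⟩
  have hlt : ∀ ω, 0 < q ω →
      ¬ law q (fun ω => (c ω, g ω)) (c ω, g ω) < Real.exp (-L) * law q g (g ω) → cd ω < M := by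
    intro ω hω hn
    rw [hcd]
    simp only
    rw [if_neg hn]
    have h1 := List.idxOf_lt_length_of_mem (hin ω hn)
    rw [Finset.length_toList] at h1
    refine lt_of_lt_of_le h1 ?_
    rw [hM]
    exact Nat.le_floor (big_card h0 c g (law_pos h0 g hω))
  have hdet : ∀ ω ω', cd ω < M → cd ω' = cd ω → g ω = g ω' → c ω = c ω' := by
    intro ω ω' h1 h2 h3
    rw [hcd] at h1 h2
    simp only at h1 h2
    by_cases hn : law q (fun ω => (c ω, g ω)) (c ω, g ω) < Real.exp (-L) * law q g (g ω)
    · rw [if_pos hn] at h1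
      exact absurd h1 (lt_irrefl _)
    by_cases hn' : law q (fun ω => (c ω, g ω)) (c ω', g ω') < Real.exp (-L) * law q g (g ω')
    · rw [if_neg hn] at h1 h2
      rw [if_pos hn'] at h2
      rw [← h2] at h1
      exact absurd h1 (lt_irrefl _)
    rw [if_neg hn, if_neg hn'] at h2
    have i1 := hin ω hn
    have i2 := hin ω' hn'
    rw [← h3] at i2 h2
    exact ((List.idxOf_inj i2).mp h2).symm
  -- the masses
  have hsum : ∑ z ∈ univ.image cd, law q cd z = 1 := by rw [sum_law, hq.sum_one]
  have hbad : law q cd M ≤ ε := by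
    have h1 := Pe_dens_le hq c g hL0 hc
    have h2 : δ / L = ε := by rw [hL]; field_simp
    rw [h2] at h1
    refine le_trans ?_ h1
    rw [← law_val, Pe_eq, Pe_eq]
    refine Finset.sum_le_sum fun ω _ => ?_
    by_cases hω : q ω = 0
    · rw [hω]; simp
    have hω' : 0 < q ω := lt_of_le_of_ne (h0 ω) (Ne.symm hω)
    by_cases hn : law q (fun ω => (c ω, g ω)) (c ω, g ω) < Real.exp (-L) * law q g (g ω)
    · rw [if_pos hn]
      split_ifs
      · exact le_rfl
      · exact hω'.le
    · rw [if_neg hn, if_neg]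
      exact (hlt ω hω' hn).ne
  by_contra hcon
  push Not at hcon
  have key : ∀ z < M, ε / (Real.exp L + 1) ≤ law q cd z →
      h / (1 - 2 * ε) < CH (Pool.Agent.H49.Ent.cond q cd z) X Y := by
    intro z hz hz2
    have h1 := hcon (fun ω => cd ω = z) (by rw [law_val, ← hL]; exact hz2)
      (fun ω ω' e1 e2 e3 => hdet ω ω' (by rw [e1]; exact hz) (by rw [e2, e1]) e3)
    rwa [cond_val] at h1
  have hXc : ∑ z ∈ univ.image cd, law q cd z * CH (Pool.Agent.H49.Ent.cond q cd z) X Y ≤ h := by
    rw [← Pool.KS3.MKC.CH_pair_eq_sum h0 X Y cd]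
    exact le_trans (CH_mono_cond h0 fun ω ω' _ _ e => (Prod.ext_iff.mp e).1) hX
  have hh0 : 0 ≤ h := (CH_nonneg h0 X Y).trans hX
  obtain ⟨G, hG⟩ : ∃ G : Finset ℕ, G = (univ.image cd).filter fun z =>
      z < M ∧ ε / (Real.exp L + 1) ≤ law q cd z := ⟨_, rfl⟩
  have hmass : 1 - 2 * ε < ∑ z ∈ G, law q cd z := by
    have e1 : ∑ z ∈ univ.image cd, law q cd z = ∑ z ∈ G, law q cd z +
        ∑ z ∈ (univ.image cd).filter (fun z =>
          ¬ (z < M ∧ ε / (Real.exp L + 1) ≤ law q cd z)), law q cd z := by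
      rw [hG, Finset.sum_filter_add_sum_filter_not]
    have e2 : ∑ z ∈ (univ.image cd).filter (fun z =>
          ¬ (z < M ∧ ε / (Real.exp L + 1) ≤ law q cd z)), law q cd z ≤
        law q cd M + ∑ _z ∈ range M, ε / (Real.exp L + 1) := by
      have hsub : (univ.image cd).filter (fun z =>
          ¬ (z < M ∧ ε / (Real.exp L + 1) ≤ law q cd z)) ⊆
          insert M ((range M).filter fun z => law q cd z < ε / (Real.exp L + 1)) ∪
            (univ.image cd).filter (fun z => M < z) := by
        intro z hz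
        rw [Finset.mem_filter] at hz
        rw [Finset.mem_union, Finset.mem_insert, Finset.mem_filter, Finset.mem_filter,
          Finset.mem_range]
        rcases lt_trichotomy z M with h1 | h1 | h1
        · left; right
          refine ⟨h1, ?_⟩
          by_contra h2
          exact hz.2 ⟨h1, not_lt.mp h2⟩
        · left; left; exact h1
        · right; exact ⟨hz.1, h1⟩
      refine (Finset.sum_le_sum_of_subset_of_nonneg hsub
        fun z _ _ => law_nonneg h0 cd z).trans ?_
      have e5 := Finset.sum_union_inter (f := fun z => law q cd z)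
        (s₁ := insert M ((range M).filter fun z => law q cd z < ε / (Real.exp L + 1)))
        (s₂ := (univ.image cd).filter (fun z => M < z))
      have e6 : 0 ≤ ∑ z ∈ insert M ((range M).filter fun z => law q cd z <
          ε / (Real.exp L + 1)) ∩ (univ.image cd).filter (fun z => M < z), law q cd z :=
        Finset.sum_nonneg fun z _ => law_nonneg h0 cd z
      refine (show _ ≤ _ by linarith [e5, e6] : ∑ z ∈ insert M ((range M).filter fun z =>
          law q cd z < ε / (Real.exp L + 1)) ∪ (univ.image cd).filter (fun z => M < z),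
          law q cd z ≤ ∑ z ∈ insert M ((range M).filter fun z =>
          law q cd z < ε / (Real.exp L + 1)), law q cd z +
          ∑ z ∈ (univ.image cd).filter (fun z => M < z), law q cd z).trans ?_
      have e3 : ∑ z ∈ (univ.image cd).filter (fun z => M < z), law q cd z = 0 := by
        refine Finset.sum_eq_zero fun z hz => ?_
        rw [Finset.mem_filter] at hz
        rw [law_eq_sum]
        refine Finset.sum_eq_zero fun ω _ => ?_
        by_cases hω : cd ω = z
        · rw [if_pos hω]
          by_contra hq0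
          have hω' : 0 < q ω := lt_of_le_of_ne (h0 ω) (Ne.symm hq0)
          by_cases hn : law q (fun ω => (c ω, g ω)) (c ω, g ω) <
              Real.exp (-L) * law q g (g ω)
          · have : cd ω = M := by
              rw [hcd]; simp only; rw [if_pos hn]
            rw [this] at hω
            exact absurd hz.2 (by rw [hω]; exact lt_irrefl _)
          · have := hlt ω hω' hn
            rw [hω] at this
            exact absurd hz.2 (by omega)
        · rw [if_neg hω]
      rw [e3, add_zero]
      rw [Finset.sum_insert (by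
        rw [Finset.mem_filter, Finset.mem_range]
        exact fun h => absurd h.1 (lt_irrefl _))]
      refine add_le_add le_rfl ?_
      refine (Finset.sum_le_sum (g := fun _ => ε / (Real.exp L + 1)) fun z hz => ?_).trans ?_
      · exact (Finset.mem_filter.mp hz).2.le
      · exact Finset.sum_le_sum_of_subset_of_nonneg (Finset.filter_subset _ _)
          fun z _ _ => by positivity
    rw [Finset.sum_const, Finset.card_range, nsmul_eq_mul] at e2
    have e4 : (M : ℝ) * (ε / (Real.exp L + 1)) < ε := by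
      rw [mul_div_assoc', div_lt_iff₀ (by positivity)]
      nlinarith
    linarith
  have hlow : (∑ z ∈ G, law q cd z) * (h / (1 - 2 * ε)) ≤
      ∑ z ∈ univ.image cd, law q cd z * CH (Pool.Agent.H49.Ent.cond q cd z) X Y := by
    rw [Finset.sum_mul]
    refine (Finset.sum_le_sum (g := fun z => law q cd z *
      CH (Pool.Agent.H49.Ent.cond q cd z) X Y) fun z hz => ?_).trans ?_
    · rw [hG, Finset.mem_filter] at hz
      exact mul_le_mul_of_nonneg_left (key z hz.2.1 hz.2.2).le (law_nonneg h0 cd z)
    · refine Finset.sum_le_sum_of_subset_of_nonneg (by rw [hG]; exact Finset.filter_subset _ _)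
        fun z _ _ => ?_
      exact mul_nonneg (law_nonneg h0 cd z) (CH_nonneg (cond_nonneg h0 cd z) X Y)
  -- the sum is larger than `h`
  have hpos : 0 < 1 - 2 * ε := by linarith
  rcases hh0.eq_or_lt with hz0 | hz0
  · -- `h = 0`
    have hGne : ∃ z ∈ G, 0 < law q cd z := by
      by_contra hno
      push Not at hno
      have : ∑ z ∈ G, law q cd z ≤ 0 := Finset.sum_nonpos hno
      linarith
    obtain ⟨z, hz, hz1⟩ := hGne
    have hzG := hz
    rw [hG, Finset.mem_filter] at hz
    have k1 := key z hz.2.1 hz.2.2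
    rw [← hz0, zero_div] at k1
    have k2 : law q cd z * CH (Pool.Agent.H49.Ent.cond q cd z) X Y ≤
        ∑ z ∈ univ.image cd, law q cd z * CH (Pool.Agent.H49.Ent.cond q cd z) X Y :=
      Finset.single_le_sum (f := fun z => law q cd z *
        CH (Pool.Agent.H49.Ent.cond q cd z) X Y)
        (fun z _ => mul_nonneg (law_nonneg h0 cd z) (CH_nonneg (cond_nonneg h0 cd z) X Y)) hz.1
    have k3 := mul_pos hz1 k1
    linarith
  · have k1 : h < (∑ z ∈ G, law q cd z) * (h / (1 - 2 * ε)) := by
      have h1 : h = (1 - 2 * ε) * (h / (1 - 2 * ε)) := by field_simp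
      have h2 : 0 < h / (1 - 2 * ε) := div_pos hz0 hpos
      calc h = (1 - 2 * ε) * (h / (1 - 2 * ε)) := h1
        _ < _ := mul_lt_mul_of_pos_right hmass h2
    linarith

end Pool.K2S
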