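import Pool.Agent.H50.K2.FRBk
import Pool.Agent.H35.K2S.FFAll

/-!
# FRB: frames are visible at the rows which are not full

If the fans at exact points are flat and the frames are conserved to the precision `lam` on windows
of length `2 ^ (-w)`, and if the rows `(w + lam - s, w + lam]` are not full, then the frames are
functions of the point rounded to `2 ^ (-(w + lam))` and of the time, to the precision `lam - s`.
The dimension is arbitrary.
-/

set_option autoImplicit false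

namespace Pool.K2S

open Finset Real
open Pool.Agent.H49.Ent Pool.Agent.H32.Dense Pool.STK Pool.KA Pool.KSAT Pool.KA.Win Pool.KA.TRC
open Rows

/-- **(FRB)** Frames are visible at the rows which are not full. -/
def FRBStmt : Prop :=
  ∀ (m : ℕ) (a R : ℝ), 1 < a → 0 < R → UBa m a R → ∀ c h₁ : ℝ, 0 < c → 0 < h₁ →
    ∀ N : ℕ, 1 ≤ N → ∀ (i₀ : Fin m) (v l s : ℕ), 1 ≤ s → v + l + s ≤ N →
    Claim (m := m) a R (fun J F A =>
      CH (Pool.Agent.H49.Ent.cond F.p A True) (F.X ((v + l + s) * (J / N)))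
        (fun ω => (F.X ((v + l) * (J / N)) ω, F.W ω)) ≤
        (2 - c) * ((s * (J / N) : ℕ) * Real.log 2) →
      Lb F i₀ ⌊h₁ * J⌋₊ A → Cn F i₀ ((l + s) * (J / N)) (v * (J / N)) A →
      ∀ h : ℕ, h + 4 ≤ l * (J / N) → RotU i₀ (1 / 2 ^ h) (1 / 2 ^ h) (K2S.Fam.pt F)
        (fun ω => (F.X ((v + l + s) * (J / N)) ω, F.W ω)) F.d A)

namespace FRB

/-- The loss in the rows of the chart coordinate. -/
theorem loss {L J n₁ H K N₂ lam e ρ C₀ σ : ℝ} (hL0 : 0 < L) (hL1 : L ≤ 1) (hJ : 0 < J)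
    (hσ : 0 < σ) (hn₁ : 1 ≤ n₁) (hK0 : 0 ≤ K) (hK : K ≤ J / n₁) (hn : 3 / σ ≤ n₁)
    (hH0 : 0 ≤ H) (hH : 4 * n₁ * H ≤ σ * J) (hN₂ : 0 ≤ N₂) (hN₂1 : N₂ ≤ 2 * n₁)
    (hN₂2 : lam - K ≤ N₂ * K) (hN₂3 : N₂ * K ≤ lam) (hlam : lam ≤ J)
    (he : e ≤ σ / (6 * n₁) * J) (hρ0 : 0 ≤ ρ) (hρ : ρ ≤ σ / 4) (hC₀ : 0 ≤ C₀)
    (hbig : 6 * n₁ + (2 * n₁ + 2) * C₀ ≤ σ * J) (hKH : 0 ≤ K - (2 * H + 3)) :
    lam * L - 5 * (σ * J) ≤
      N₂ * ((K - (2 * H + 3)) * L - 4 * ((K - (2 * H + 3)) * L) * ρ - 3 * e - C₀) -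
        2 * (K * L + C₀) := by
  have hn0 : 0 < n₁ := by linarith
  have k1 : 3 * K ≤ σ * J := by
    rw [div_le_iff₀ hσ] at hn
    rw [le_div_iff₀ hn0] at hK
    have h1 : 3 * K * n₁ ≤ σ * J * n₁ := by nlinarith
    exact le_of_mul_le_mul_right h1 hn0
  have k2 : N₂ * (2 * H + 3) ≤ σ * J + 6 * n₁ := by
    have h1 : N₂ * (2 * H + 3) ≤ 2 * n₁ * (2 * H + 3) :=
      mul_le_mul_of_nonneg_right hN₂1 (by positivity)
    linarith
  have k3 : N₂ * (4 * ((K - (2 * H + 3)) * L) * ρ) ≤ σ * J := by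
    have h1 : (K - (2 * H + 3)) * L ≤ K := by
      calc (K - (2 * H + 3)) * L ≤ (K - (2 * H + 3)) * 1 := mul_le_mul_of_nonneg_left hL1 hKH
        _ ≤ K := by linarith
    have h2 : N₂ * ((K - (2 * H + 3)) * L) ≤ J := by
      calc N₂ * ((K - (2 * H + 3)) * L) ≤ N₂ * K := mul_le_mul_of_nonneg_left h1 hN₂
        _ ≤ J := by linarith
    have h3 : 0 ≤ N₂ * ((K - (2 * H + 3)) * L) := by positivity
    calc N₂ * (4 * ((K - (2 * H + 3)) * L) * ρ) = 4 * (N₂ * ((K - (2 * H + 3)) * L) * ρ) := by ring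
      _ ≤ 4 * (J * (σ / 4)) :=
          mul_le_mul_of_nonneg_left (mul_le_mul h2 hρ hρ0 hJ.le) (by norm_num)
      _ = σ * J := by ring
  have k4 : N₂ * (3 * e) ≤ σ * J := by
    rcases le_total 0 e with h0 | h0
    · have h1 : N₂ * (3 * e) ≤ 2 * n₁ * (3 * (σ / (6 * n₁) * J)) :=
        mul_le_mul hN₂1 (by linarith) (by positivity) (by positivity)
      have h2 : 2 * n₁ * (3 * (σ / (6 * n₁) * J)) = σ * J := by field_simp; ring
      linarith
    · have h1 : N₂ * (3 * e) ≤ 0 := mul_nonpos_of_nonneg_of_nonpos hN₂ (by linarith)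
      have h2 : 0 < σ * J := by positivity
      linarith
  have k5 : N₂ * C₀ + 2 * C₀ ≤ (2 * n₁ + 2) * C₀ := by
    have := mul_le_mul_of_nonneg_right hN₂1 hC₀
    linarith
  have k6 : (lam - K) * L ≤ N₂ * K * L := mul_le_mul_of_nonneg_right hN₂2 hL0.le
  have k7 : N₂ * (2 * H + 3) * L ≤ N₂ * (2 * H + 3) := by
    have h1 : 0 ≤ N₂ * (2 * H + 3) := by positivity
    calc N₂ * (2 * H + 3) * L ≤ N₂ * (2 * H + 3) * 1 := mul_le_mul_of_nonneg_left hL1 h1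
      _ = _ := mul_one _
  have k8 : K * L ≤ K := by
    calc K * L ≤ K * 1 := mul_le_mul_of_nonneg_left hL1 hK0
      _ = K := mul_one _
  have e1 : N₂ * ((K - (2 * H + 3)) * L - 4 * ((K - (2 * H + 3)) * L) * ρ - 3 * e - C₀) =
      N₂ * K * L - N₂ * (2 * H + 3) * L - N₂ * (4 * ((K - (2 * H + 3)) * L) * ρ) -
        N₂ * (3 * e) - N₂ * C₀ := by ring
  rw [e1]
  linarith

/-- The logarithm. -/
theorem log_small {σ J : ℝ} (hσ : 0 < σ) (hJ : 0 ≤ J)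
    (h : σ / 4 + 2 * |Real.log (8 / σ)| ≤ σ / 2 * J) : 2 * Real.log (J + 1) ≤ σ * J := by
  have hT : 0 < 8 / σ := by positivity
  have h1 : Real.log ((J + 1) / (8 / σ)) ≤ (J + 1) / (8 / σ) - 1 :=
    Real.log_le_sub_one_of_pos (by positivity)
  rw [Real.log_div (by positivity) hT.ne'] at h1
  have h2 : (J + 1) / (8 / σ) = σ / 8 * (J + 1) := by field_simp
  rw [h2] at h1
  have h3 := le_abs_self (Real.log (8 / σ))
  nlinarith

end FRB

/-- **(FRB)**. -/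
theorem frb_thm (h6 : AP6RStmt) : FRBStmt := by
  intro m a R ha hR hU c h₁ hc hh₁ N hN i₀ v l s hs hvN
  have hl2 : 0 < Real.log 2 := Real.log_pos (by norm_num)
  have hl2' : (1 : ℝ) / 2 ≤ Real.log 2 := by
    have := Real.log_two_gt_d9
    linarith
  have hl2'' : Real.log 2 ≤ 1 := by
    have := Real.log_two_lt_d9
    linarith
  have ha0 : 0 < a := by linarith
  have hNr : (0 : ℝ) < N := by
    have : 0 < N := by omega
    exact_mod_cast this
  obtain ⟨C₀, hC₀, hrows⟩ := FRB.rows_chart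
  -- the constants
  obtain ⟨c', hc'⟩ : ∃ c', c' = min c 1 := ⟨_, rfl⟩
  have hc'0 : 0 < c' := by rw [hc']; exact lt_min hc one_pos
  have hc'1 : c' ≤ 1 := by rw [hc']; exact min_le_right _ _
  have hc'c : c' ≤ c := by rw [hc']; exact min_le_left _ _
  obtain ⟨σ, hσ⟩ : ∃ σ, σ = c' / (256 * N) := ⟨_, rfl⟩
  have hσ0 : 0 < σ := by rw [hσ]; positivity
  obtain ⟨ε, hε⟩ : ∃ ε, ε = min (c' / 16) (σ / 4) := ⟨_, rfl⟩
  have hε0 : 0 < ε := by rw [hε]; positivity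
  have hε1 : ε ≤ c' / 16 := by rw [hε]; exact min_le_left _ _
  have hε2 : ε ≤ σ / 4 := by rw [hε]; exact min_le_right _ _
  obtain ⟨n₁, hn₁⟩ : ∃ n₁ : ℕ, n₁ = ⌈3 / σ⌉₊ + 1 := ⟨_, rfl⟩
  have hn₁1 : 1 ≤ n₁ := by rw [hn₁]; omega
  have hn₁r : (1 : ℝ) ≤ n₁ := by exact_mod_cast hn₁1
  have hn₁σ : 3 / σ ≤ n₁ := by
    rw [hn₁]
    push_cast
    have := Nat.le_ceil (3 / σ)
    linarith
  obtain ⟨n₂, hn₂⟩ : ∃ n₂ : ℕ, n₂ = max (max (⌈4 * n₁ / σ⌉₊ + 1) (4 * (n₁ * n₁)))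
    (max (⌈2 / h₁⌉₊ + 1) (4 * N)) := ⟨_, rfl⟩
  have hn₂0 : 0 < n₂ := by
    rw [hn₂]
    exact lt_of_lt_of_le (Nat.succ_pos _) ((le_max_left _ _).trans (le_max_left _ _))
  have hn₂r : (0 : ℝ) < n₂ := by exact_mod_cast hn₂0
  have hn₂1 : 4 * n₁ / σ ≤ (n₂ : ℝ) := by
    have h1 : ⌈4 * n₁ / σ⌉₊ ≤ n₂ := by
      rw [hn₂]
      exact (Nat.le_succ _).trans ((le_max_left _ _).trans (le_max_left _ _))
    exact (Nat.le_ceil _).trans (by exact_mod_cast h1)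
  have hn₂2 : 2 / h₁ ≤ (n₂ : ℝ) := by
    have h1 : ⌈2 / h₁⌉₊ ≤ n₂ := by
      rw [hn₂]
      exact (Nat.le_succ _).trans ((le_max_left _ _).trans (le_max_right _ _))
    exact (Nat.le_ceil _).trans (by exact_mod_cast h1)
  have hn₂3 : 4 * N ≤ n₂ := by
    rw [hn₂]
    exact (le_max_right _ _).trans (le_max_right _ _)
  have hn₂4 : 4 * (n₁ * n₁) ≤ n₂ := by
    rw [hn₂]
    exact (le_max_right _ _).trans (le_max_left _ _)
  obtain ⟨τ₂, hτ₂, J₅, hball⟩ := not_ball h6 (m := m) ha.le hR hU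
    (x := 1 / (16 * (n₂ : ℝ))) (by positivity)
  obtain ⟨δ, hδ⟩ : ∃ δ, δ = (2 * n₁ : ℕ) * (FF.vis m + 2 * cc 1) + 1 := ⟨_, rfl⟩
  have hvc : 0 ≤ FF.vis m + 2 * cc 1 := by
    have h1 := FF.vis_nonneg m
    have h2 := FF.cc_nonneg 1
    linarith
  have hδ0 : 0 < δ := by
    rw [hδ]
    positivity
  obtain ⟨τ', hτ'⟩ : ∃ τ', τ' = min τ₂ (σ / (6 * n₁)) := ⟨_, rfl⟩
  have hτ'0 : 0 < τ' := by rw [hτ']; positivity
  have hτ'2 : τ' ≤ τ₂ := by rw [hτ']; exact min_le_left _ _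
  have hτ'3 : τ' ≤ σ / (6 * n₁) := by rw [hτ']; exact min_le_right _ _
  obtain ⟨τ, hτ⟩ : ∃ τ, τ = τ' / (7 * (1 + a)) := ⟨_, rfl⟩
  have hτ0 : 0 < τ := by rw [hτ]; positivity
  have hτe : (1 + a) * (5 * τ + 2 * τ) = τ' := by
    rw [hτ]
    field_simp
    ring
  obtain ⟨ϖ, hϖ⟩ : ∃ ϖ, ϖ = FRB.pi0 δ ε := ⟨_, rfl⟩
  have hϖ0 : 0 < ϖ := by rw [hϖ]; exact FRB.pi0_pos hε0
  -- the list of properties
  refine Claim.one ⟨2, fun J F i => if i = 0 then
      Ball (1 / 2 ^ (J / n₂ / 4 - 1)) (K2S.Fam.pt F) F.d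
      else RotU i₀ (1 / 2 ^ (l * (J / N) - 4)) (1 / 2 ^ (l * (J / N) - 4)) (K2S.Fam.pt F)
        (fun ω => (F.X ((v + l + s) * (J / N)) ω, F.W ω)) F.d, ?_⟩ fun κ hκ => ?_
  · intro J F i
    by_cases hi : i = 0
    · simp only [hi, if_true]
      exact Ball.hered _ _ _
    · simp only [hi, if_false]
      exact RotU.hered _ _ _ _ _ _
  obtain ⟨J₁, hJ₁⟩ := exists_nat_gt
    ((2 * |Real.log ε| + 2 * |Real.log ϖ| + 8 * Real.log 2) / κ +
      (|Real.log (c' / 4 * (ϖ / 4))|) / κ + (|Real.log (ϖ / 4)|) / τ +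
      24 / h₁ + (12 * n₂ + 48 * n₁ + 2 * N : ℕ) + J₅ +
      (6 * n₁ + (2 * n₁ + 2) * C₀) / σ + (σ / 4 + 2 * |Real.log (8 / σ)|) / (σ / 2) +
      |PU.puC m 2 4| / σ + 1)
  refine ⟨τ, hτ0, J₁, ?_⟩
  intro J hJ F A hS hstab hnf hLb hCn
  have hJr : (J₁ : ℝ) ≤ J := by exact_mod_cast hJ
  have t1 : 0 ≤ (2 * |Real.log ε| + 2 * |Real.log ϖ| + 8 * Real.log 2) / κ := by positivity
  have t2 : 0 ≤ (|Real.log (c' / 4 * (ϖ / 4))|) / κ := by positivity
  have t3 : 0 ≤ (|Real.log (ϖ / 4)|) / τ := by positivity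
  have t4 : 0 ≤ 24 / h₁ := by positivity
  have t5 : (0 : ℝ) ≤ ((12 * n₂ + 48 * n₁ + 2 * N : ℕ) : ℝ) := by positivity
  have t6 : (0 : ℝ) ≤ J₅ := by positivity
  have t7 : 0 ≤ (6 * n₁ + (2 * n₁ + 2) * C₀) / σ := by positivity
  have t8 : 0 ≤ (σ / 4 + 2 * |Real.log (8 / σ)|) / (σ / 2) := by positivity
  have t9 : 0 ≤ |PU.puC m 2 4| / σ := by positivity
  have j1 : (2 * |Real.log ε| + 2 * |Real.log ϖ| + 8 * Real.log 2) / κ < J := by
    linarith only [hJ₁, hJr, t1, t2, t3, t4, t5, t6, t7, t8, t9]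
  have j2 : (|Real.log (c' / 4 * (ϖ / 4))|) / κ < J := by
    linarith only [hJ₁, hJr, t1, t2, t3, t4, t5, t6, t7, t8, t9]
  have j3 : (|Real.log (ϖ / 4)|) / τ < J := by
    linarith only [hJ₁, hJr, t1, t2, t3, t4, t5, t6, t7, t8, t9]
  have j4 : 24 / h₁ < J := by
    linarith only [hJ₁, hJr, t1, t2, t3, t4, t5, t6, t7, t8, t9]
  have j5 : ((12 * n₂ + 48 * n₁ + 2 * N : ℕ) : ℝ) ≤ J := by
    linarith only [hJ₁, hJr, t1, t2, t3, t4, t5, t6, t7, t8, t9]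
  have j6 : (J₅ : ℝ) ≤ J := by
    linarith only [hJ₁, hJr, t1, t2, t3, t4, t5, t6, t7, t8, t9]
  have j7 : (6 * n₁ + (2 * n₁ + 2) * C₀) / σ < J := by
    linarith only [hJ₁, hJr, t1, t2, t3, t4, t5, t6, t7, t8, t9]
  have j8 : (σ / 4 + 2 * |Real.log (8 / σ)|) / (σ / 2) < J := by
    linarith only [hJ₁, hJr, t1, t2, t3, t4, t5, t6, t7, t8, t9]
  have j9 : |PU.puC m 2 4| / σ < J := by
    linarith only [hJ₁, hJr, t1, t2, t3, t4, t5, t6, t7, t8, t9]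
  rw [div_lt_iff₀ hκ] at j1 j2
  rw [div_lt_iff₀ hτ0] at j3
  rw [div_lt_iff₀ hh₁] at j4
  rw [div_lt_iff₀ hσ0] at j7 j9
  rw [div_lt_iff₀ (by positivity)] at j8
  have j5' : 12 * n₂ + 48 * n₁ + 2 * N ≤ J := by exact_mod_cast j5
  have j6' : J ≥ J₅ := by exact_mod_cast j6
  obtain ⟨hTr, hMx, hRb, hPA⟩ := hS
  have hp := F.isLaw
  have hA0 : 0 < Pe F.p A := lt_of_lt_of_le (Real.exp_pos _) hPA
  have hJ0 : (0 : ℝ) ≤ J := Nat.cast_nonneg J
  have hJpos : (0 : ℝ) < J := by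
    linarith only [hJ₁, hJr, t1, t2, t3, t4, t5, t6, t7, t8, t9]
  -- the scales
  obtain ⟨u, hu⟩ : ∃ u, u = J / N := ⟨_, rfl⟩
  obtain ⟨w, hw⟩ : ∃ w, w = v * u := ⟨_, rfl⟩
  obtain ⟨lam, hlam⟩ : ∃ lam, lam = (l + s) * u := ⟨_, rfl⟩
  obtain ⟨H, hH⟩ : ∃ H, H = J / n₂ := ⟨_, rfl⟩
  obtain ⟨K, hK⟩ : ∃ K, K = J / n₁ := ⟨_, rfl⟩
  have hNu : N * u ≤ J := by rw [hu]; exact Nat.mul_div_le J N
  have hP' : (v + l + s) * u = w + lam := by rw [hw, hlam]; ring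
  have hP : (v + l) * u = w + lam - s * u := by
    have : (v + l) * u + s * u = w + lam := by rw [hw, hlam]; ring
    omega
  have hJw : w + lam ≤ J := by
    rw [← hP']
    exact (Nat.mul_le_mul_right _ hvN).trans hNu
  have hslam : s * u ≤ lam := by
    rw [hlam]
    exact Nat.mul_le_mul_right _ (by omega)
  have hlams : lam - s * u = l * u := by
    have : l * u + s * u = lam := by rw [hlam]; ring
    omega
  have hu1 : J < N * (u + 1) := by rw [hu]; exact Nat.lt_mul_div_succ J (by omega)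
  have hur : (J : ℝ) < N * (u + 1) := by exact_mod_cast hu1
  have hu2 : 2 * N ≤ J := by omega
  have hu2r : 2 * (N : ℝ) ≤ J := by exact_mod_cast hu2
  have hu0 : 0 < u := by
    rw [hu]
    exact Nat.div_pos (by omega) (by omega)
  have hsu0 : 0 < s * u := Nat.mul_pos (by omega) hu0
  have hsu : (u : ℝ) ≤ ((s * u : ℕ) : ℝ) := by
    have : 1 * u ≤ s * u := Nat.mul_le_mul_right _ hs
    rw [one_mul] at this
    exact_mod_cast this
  have hurJ : (J : ℝ) ≤ 2 * N * u := by linarith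
  have hH12 : 12 ≤ H := by
    rw [hH, Nat.le_div_iff_mul_le hn₂0]
    omega
  have hHle : n₂ * H ≤ J := by rw [hH]; exact Nat.mul_div_le J n₂
  have hHr : (n₂ : ℝ) * H ≤ J := by exact_mod_cast hHle
  have hHu : H ≤ lam := by
    have h1 : 4 * N * H ≤ J := (Nat.mul_le_mul_right _ hn₂3).trans hHle
    have h2 : 4 * N * H < N * (u + 1) := lt_of_le_of_lt h1 hu1
    have h3 : N * (4 * H) < N * (u + 1) := by
      calc N * (4 * H) = 4 * N * H := by ring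
        _ < _ := h2
    have h4 : 4 * H < u + 1 := lt_of_mul_lt_mul_left h3 (Nat.zero_le _)
    have h5 : u ≤ lam := by
      rw [hlam]
      calc u = 1 * u := (one_mul u).symm
        _ ≤ _ := Nat.mul_le_mul_right _ (by omega)
    omega
  have hHh : H / 4 - 1 + 3 ≤ ⌊h₁ * (J : ℝ)⌋₊ := by
    have h1 : (H : ℝ) ≤ h₁ / 2 * J := by
      have h2 : (H : ℝ) ≤ J / n₂ := by
        rw [le_div_iff₀ hn₂r]
        linarith
      refine h2.trans ?_
      rw [div_le_iff₀ hn₂r]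
      rw [div_le_iff₀ hh₁] at hn₂2
      have h4 := mul_le_mul_of_nonneg_right hn₂2 hJ0
      linarith only [h4]
    have h3 : ((H / 4 - 1 + 3 : ℕ) : ℝ) ≤ H := by
      have : H / 4 - 1 + 3 ≤ H := by omega
      exact_mod_cast this
    refine Nat.le_floor (h3.trans (h1.trans ?_))
    have h4 := mul_pos hh₁ hJpos
    linarith only [h4]
  have hq16 : 1 / (16 * (n₂ : ℝ)) * J ≤ ((H / 4 - 1 : ℕ) : ℝ) := by
    have h1 : J < n₂ * (H + 1) := by rw [hH]; exact Nat.lt_mul_div_succ J hn₂0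
    have h1r : (J : ℝ) < n₂ * (H + 1) := by exact_mod_cast h1
    have h2 : H + 1 ≤ 16 * (H / 4 - 1) := by omega
    have h2r : (H : ℝ) + 1 ≤ 16 * ((H / 4 - 1 : ℕ) : ℝ) := by exact_mod_cast h2
    rw [div_mul_eq_mul_div, one_mul, div_le_iff₀ (by positivity)]
    have h3 := mul_le_mul_of_nonneg_left h2r hn₂r.le
    linarith only [h3, h1r]
  -- it suffices to treat the largest precision
  suffices hmain : RotU i₀ (1 / 2 ^ (l * (J / N) - 4)) (1 / 2 ^ (l * (J / N) - 4))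
      (K2S.Fam.pt F) (fun ω => (F.X ((v + l + s) * (J / N)) ω, F.W ω)) F.d A by
    intro h hh
    have hle : (1 : ℝ) / 2 ^ (l * (J / N) - 4) ≤ 1 / 2 ^ h :=
      one_div_le_one_div_of_le (by positivity)
        (pow_le_pow_right₀ (by norm_num) (by omega))
    obtain ⟨e', n', ζ', q1, q2⟩ := hmain
    exact ⟨e', n', ζ', q1.mono hle, fun ω hω j => (q2 ω hω j).trans hle⟩
  by_cases hl4 : l * (J / N) < 4
  · -- precision `1`
    have h0 : l * (J / N) - 4 = 0 := by omega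
    rw [h0]
    obtain ⟨e', n', h1, h2⟩ := hLb.mono (Nat.zero_le ⌊h₁ * (J : ℝ)⌋₊)
    refine ⟨e', n', fun _ _ => 0, h2, fun ω hω j => ?_⟩
    have := h1 ω hω j
    simpa using this
  push Not at hl4
  rw [← hu] at hl4 hnf hCn ⊢
  rw [← hlam, ← hw] at hCn
  rw [hP', hP] at hnf
  rw [hP']
  have s1 : Stb F.p (κ * J) A (Ball (1 / 2 ^ (H / 4 - 1)) (K2S.Fam.pt F) F.d) := by
    have := hstab 0
    simpa [hH] using this
  have s2 : Stb F.p (κ * J) A (RotU i₀ (1 / 2 ^ (l * u - 4)) (1 / 2 ^ (l * u - 4))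
      (K2S.Fam.pt F) (fun ω => (F.X (w + lam) ω, F.W ω)) F.d) := by
    have := hstab 1
    rw [← hP', hu]
    simpa using this
  -- the balls
  have hnB : ¬ Ball (1 / 2 ^ (H / 4 - 1)) (K2S.Fam.pt F) F.d A := by
    have e1 : Real.exp (-((2 * τ) * J)) ≤ Pe F.p A := by
      refine le_trans (Real.exp_le_exp.2 ?_) hPA
      have : 0 ≤ τ * J := by positivity
      linarith
    obtain ⟨h, -, h2, -⟩ := max_res F ha.le hτ0.le (by linarith : (0 : ℝ) ≤ 2 * τ) hTr hMx hRb A e1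
    rw [hτe] at h2
    rintro ⟨vv, hv⟩
    refine hball J j6' (F.res A True h) (Mx_mono hτ'2 h2) (H / 4 - 1) (by omega) hq16 ⟨vv, ?_⟩
    intro ω hω j
    exact hv ω (FF.Pe_res h hω) j
  -- the number of windows
  have hlJ : lam ≤ J := by omega
  have hn1' : 2 * n₁ ≤ J := by omega
  obtain ⟨k1, l2, l3, l4, l5⟩ := FF.win_count (J := J) (n₁ := n₁) (x := lam) (by omega) hn1' hlJ
  rw [← hK] at k1 l2 l3 l4 l5
  have l2' : lam / K ≤ 2 * n₁ := by exact_mod_cast l2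
  have hKH : 3 * H + 6 ≤ K := by
    have e1 : H ≤ J / (n₁ * 4) := by
      rw [hH]
      refine Nat.div_le_div_left (le_trans ?_ hn₂4) (by positivity)
      have : n₁ ≤ n₁ * n₁ := Nat.le_mul_of_pos_right n₁ (by omega)
      omega
    rw [← Nat.div_div_eq_div_mul, ← hK] at e1
    have e2 : 24 ≤ K := by
      rw [hK, Nat.le_div_iff_mul_le (by omega)]
      omega
    omega
  -- the cleaned event
  have hδle : ((lam / K : ℕ) : ℝ) * (FF.vis m + 2 * cc 1) ≤ δ := by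
    rw [hδ]
    have h1 : ((lam / K : ℕ) : ℝ) ≤ ((2 * n₁ : ℕ) : ℝ) := by exact_mod_cast l2'
    have := mul_le_mul_of_nonneg_right h1 hvc
    linarith
  obtain ⟨A', hsub, hA', hPA', hCH, z, e, n, hdet, hz, hez, hon, nc2, hdl⟩ := FRB.clean F
    (i₀ := i₀) (w := w) (lam := lam) (K := K) (N := lam / K) (q := H / 4 - 1)
    (hb := ⌊h₁ * J⌋₊) (by omega) hJw hHh (by omega) hA0 (κ := κ * J) (δ := δ) (ε := ε) hδle hδ0
    hε0 (by linarith) (by rw [← hϖ]; linarith) s1 hnB hLb hCn (F.X (w + lam))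
    (fun ω => (F.X (w + lam - s * u) ω, F.W ω))
  rw [← hϖ] at hPA'
  have hPA2 : Real.exp (-((2 * τ) * J)) ≤ Pe F.p A' := by
    refine le_trans ?_ hPA'
    have h1 : Real.exp (-(τ * J)) ≤ ϖ / 4 := by
      have h2 := neg_abs_le (Real.log (ϖ / 4))
      have h3 : Real.exp (-(τ * J)) ≤ Real.exp (Real.log (ϖ / 4)) :=
        Real.exp_le_exp.2 (by linarith)
      rwa [Real.exp_log (by positivity)] at h3
    calc Real.exp (-((2 * τ) * J)) = Real.exp (-(τ * J)) * Real.exp (-(τ * J)) := by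
          rw [← Real.exp_add]; congr 1; ring
      _ ≤ ϖ / 4 * Pe F.p A := mul_le_mul h1 hPA (Real.exp_pos _).le (by positivity)
  obtain ⟨hlaw, -, hMx', -⟩ := max_res F ha.le hτ0.le (by linarith : (0 : ℝ) ≤ 2 * τ) hTr hMx hRb
    A' hPA2
  rw [hτe] at hMx'
  have hpos : ∀ ω, 0 < (F.res A' True hlaw).p ω → A' ω := fun ω hω => FF.Pe_res hlaw hω
  have hposF : ∀ ω, 0 < (F.res A' True hlaw).p ω → 0 < F.p ω := fun ω hω =>
    ((cond_pos_iff hp.nonneg A' True ω).1 hω).1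
  -- the chart coordinate
  obtain ⟨e₀, n₀, hfr⟩ := hLb
  have hch := NonConc.chart hlaw (A := A') (fun ω hω => hpos ω hω) (hfr.sub hsub) nc2
  have hrad : ((2 : ℝ) ^ (H / 4))⁻¹ ≤ 1 / 2 ^ (H / 4 - 1) - 1 / 2 ^ ⌊h₁ * (J : ℝ)⌋₊ := by
    have e1 : (1 : ℝ) / 2 ^ ⌊h₁ * (J : ℝ)⌋₊ ≤ ((2 : ℝ) ^ (H / 4))⁻¹ := by
      rw [← one_div]
      refine one_div_le_one_div_of_le (by positivity) ?_
      exact pow_le_pow_right₀ (by norm_num) (by omega)
    have e2 : (1 : ℝ) / 2 ^ (H / 4 - 1) = 2 * ((2 : ℝ) ^ (H / 4))⁻¹ := by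
      have e3 : (2 : ℝ) ^ (H / 4) = 2 ^ (H / 4 - 1) * 2 := by
        rw [← pow_succ]
        congr 1
        omega
      rw [e3]
      field_simp
    rw [e2]
    linarith
  have nc3 : NonConc (Pool.Agent.H49.Ent.cond F.p A' True) (fun ω => F.d ω i₀) (K2S.Fam.pt F)
      (fun D (v : ℝ) => |D - v| ≤ ((2 : ℝ) ^ (H / 4))⁻¹) ε :=
    hch.rel hlaw fun D v h => h.trans hrad
  -- the rows of the chart coordinate
  have hH2 : H / 4 + 2 ≤ H := by omega
  have key := hrows m J (F.res A' True hlaw) i₀ z w lam (lam / K) K (K - (2 * H + 3)) H (τ' * J) ε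
    hJw l4 hMx'.1 (fun ω ω' h1 h2 h3 => hdet ω ω' (hposF ω h1) (hposF ω' h2) h3) (by omega)
    (by omega) (fun i hi => FRB.spn_labp (F.res A' True hlaw) hH2 nc3 hdl hi)
  have ea : ((K - (2 * H + 3) : ℕ) : ℝ) = (K : ℝ) - (2 * H + 3) := by
    rw [Nat.cast_sub (by omega)]
    push_cast
    ring
  rw [ea] at key
  have hKr : (3 : ℝ) * H + 6 ≤ K := by exact_mod_cast hKH
  have hHr0 : (0 : ℝ) ≤ H := Nat.cast_nonneg H
  have hbigH : 4 * (n₁ : ℝ) * H ≤ σ * J := by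
    rw [div_le_iff₀ hσ0] at hn₂1
    have h1 : 4 * (n₁ : ℝ) * H ≤ n₂ * σ * H := mul_le_mul_of_nonneg_right hn₂1 hHr0
    have h2 := mul_le_mul_of_nonneg_left hHr hσ0.le
    linarith only [h1, h2]
  have hloss := FRB.loss (L := Real.log 2) (J := J) (n₁ := n₁) (H := H) (K := K)
    (N₂ := (lam / K : ℕ)) (lam := lam) (e := τ' * J) (ρ := ε) (C₀ := C₀) (σ := σ) hl2 hl2''
    hJpos hσ0 hn₁r (Nat.cast_nonneg K) l5 hn₁σ hHr0 hbigH (Nat.cast_nonneg _) l2 l3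
    (by exact_mod_cast l4) (by exact_mod_cast hlJ)
    (mul_le_mul_of_nonneg_right hτ'3 hJ0) hε0.le hε2 hC₀ (by linarith) (by linarith)
  -- two labels at one point
  have hlogJ := FRB.log_small hσ0 hJ0 (by linarith)
  have hpuC := le_abs_self (PU.puC m 2 4)
  have hrow : (((s * u : ℕ) : ℝ) * Real.log 2) ≥ 64 * σ / c' * J := by
    have e1 : 64 * σ / c' * J = J / (4 * N) := by
      rw [hσ]
      field_simp
      ring
    rw [e1]
    have h1 : (J : ℝ) / (4 * N) ≤ u / 2 := by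
      rw [div_le_iff₀ (by positivity)]
      linarith
    have h2 : (u : ℝ) / 2 ≤ ((s * u : ℕ) : ℝ) * Real.log 2 := by
      calc (u : ℝ) / 2 = u * (1 / 2) := by ring
        _ ≤ ((s * u : ℕ) : ℝ) * Real.log 2 :=
            mul_le_mul hsu hl2' (by norm_num) (Nat.cast_nonneg _)
    linarith
  have hrow2 : 64 * σ * J ≤ c' * (((s * u : ℕ) : ℝ) * Real.log 2) := by
    have h1 := mul_le_mul_of_nonneg_left hrow hc'0.le
    have h2 : c' * (64 * σ / c' * J) = 64 * σ * J := by field_simp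
    rw [h2] at h1
    exact h1
  have hLr0 : 0 ≤ ((s * u : ℕ) : ℝ) * Real.log 2 := by positivity
  have hn2 : CH (F.res A' True hlaw).p ((F.res A' True hlaw).X (w + lam))
      (fun ω => ((F.res A' True hlaw).X (w + lam - s * u) ω, (F.res A' True hlaw).W ω)) ≤
      (2 - c' / 2) * (((s * u : ℕ) : ℝ) * Real.log 2) := by
    have h1 : (1 - 4 * ε) * CH (Pool.Agent.H49.Ent.cond F.p A' True) (F.X (w + lam))
        (fun ω => (F.X (w + lam - s * u) ω, F.W ω)) ≤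
        (2 - c') * (((s * u : ℕ) : ℝ) * Real.log 2) := by
      refine hCH.trans (hnf.trans ?_)
      exact mul_le_mul_of_nonneg_right (by linarith) hLr0
    have h2 : 2 - c' ≤ (1 - 4 * ε) * (2 - c' / 2) := by
      have e1 : (1 - 4 * ε) * (2 - c' / 2) = 2 - c' / 2 - 8 * ε + 2 * (ε * c') := by ring
      have e2 := mul_nonneg hε0.le hc'0.le
      rw [e1]
      linarith only [e2, hε1]
    have h3 : (2 - c') * (((s * u : ℕ) : ℝ) * Real.log 2) ≤
        (1 - 4 * ε) * ((2 - c' / 2) * (((s * u : ℕ) : ℝ) * Real.log 2)) := by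
      calc (2 - c') * (((s * u : ℕ) : ℝ) * Real.log 2) ≤
          (1 - 4 * ε) * (2 - c' / 2) * (((s * u : ℕ) : ℝ) * Real.log 2) :=
            mul_le_mul_of_nonneg_right h2 hLr0
        _ = _ := by ring
    exact le_of_mul_le_mul_left (h1.trans h3) (by linarith)
  have hnum : c' / 4 * (((s * u : ℕ) : ℝ) * Real.log 2) + 2 * (5 * (σ * J)) +
      2 * Real.log ((J : ℝ) + 1) + PU.puC m 2 4 ≤
      c' / 2 * (((s * u : ℕ) : ℝ) * Real.log 2) := by
    linarith only [hrow2, hlogJ, hpuC, j9, hJ0, mul_nonneg hσ0.le hJ0]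
  obtain ⟨ζ, hζ'⟩ : ∃ ζ : (Fin m → ℤ) × (ℕ × F.ζ) → Fin m → ℝ,
      c' / 4 ≤ Pe (Pool.Agent.H49.Ent.cond F.p A' True) (fun ω => ∀ j,
      |FRB.sgm i₀ z ω j - ζ (F.X (w + lam) ω, F.W ω) j| * 2 ^ (lam - s * u) ≤ 9) :=
    FRB.extract (F.res A' True hlaw) (w := w) (lam := lam) (s := s * u) hJw hslam
      (i₀ := i₀) (z := z) (fun ω hω j => hz ω (hpos ω hω) j) (d := 5 * (σ * J)) (β := c' / 4)
      (c := c' / 2) (hloss.trans key) hn2 hnum hsu0
  rw [Pe_cond, le_div_iff₀ hA'] at hζ'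
  -- the stable property
  refine s2.of_sub (B := fun ω => A' ω ∧ ∀ j,
      |FRB.sgm i₀ z ω j - ζ (F.X (w + lam) ω, F.W ω) j| * 2 ^ (lam - s * u) ≤ 9)
    (fun ω hω => hsub ω hω.1) ?_ ?_
  · refine le_trans ?_ hζ'
    have h1 : Real.exp (-(κ * J)) ≤ c' / 4 * (ϖ / 4) := by
      have h2 := neg_abs_le (Real.log (c' / 4 * (ϖ / 4)))
      have h3 : Real.exp (-(κ * J)) ≤ Real.exp (Real.log (c' / 4 * (ϖ / 4))) :=
        Real.exp_le_exp.2 (by linarith)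
      rwa [Real.exp_log (by positivity)] at h3
    calc Real.exp (-(κ * J)) * Pe F.p A ≤ c' / 4 * (ϖ / 4) * Pe F.p A :=
          mul_le_mul_of_nonneg_right h1 hA0.le
      _ = c' / 4 * (ϖ / 4 * Pe F.p A) := by ring
      _ ≤ _ := mul_le_mul_of_nonneg_left hPA' (by positivity)
  · rw [hlams]
    have p1 : (0 : ℝ) < 2 ^ (l * u) := by positivity
    have r1 : (1 : ℝ) / 2 ^ lam ≤ 1 / 2 ^ (l * u) := by
      refine one_div_le_one_div_of_le p1 (pow_le_pow_right₀ (by norm_num) ?_)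
      omega
    have r2 : (1 : ℝ) / 2 ^ (l * u - 4) = 16 * (1 / 2 ^ (l * u)) := by
      have h1 : (2 : ℝ) ^ (l * u) = 2 ^ (l * u - 4) * 16 := by
        have h2 : (16 : ℝ) = 2 ^ 4 := by norm_num
        rw [h2, ← pow_add]
        congr 1
        omega
      rw [h1]
      field_simp
    have r3 : 0 < (1 : ℝ) / 2 ^ (l * u) := by positivity
    refine ⟨fun x j => if j = i₀ then 1 else e x j, fun x j => if j = i₀ then 0 else n x j, ζ,
      ?_, ?_⟩
    · intro ω hω j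
      beta_reduce
      by_cases hj : j = i₀
      · rw [if_pos hj, if_pos hj, hj]
        have : F.d ω i₀ - 1 * F.d ω i₀ - 0 = 0 := by ring
        rw [this, abs_zero]
        positivity
      · rw [if_neg hj, if_neg hj]
        refine (hon ω (hsub ω hω.1) j).trans ?_
        rw [r2]
        linarith
    · intro ω hω j
      beta_reduce
      have h1 := hω.2 j
      have h2 : |FRB.sgm i₀ z ω j - ζ (F.X (w + lam) ω, F.W ω) j| ≤ 9 * (1 / 2 ^ (l * u)) := by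
        rw [mul_one_div, le_div_iff₀ p1]
        exact h1
      unfold FRB.sgm at h2
      rw [r2]
      by_cases hj : j = i₀
      · rw [if_pos hj] at h2 ⊢
        linarith
      · rw [if_neg hj] at h2 ⊢
        have h3 := hez ω (hsub ω hω.1) j
        rw [← one_div] at h3
        have h4 := abs_add_le (e (K2S.Fam.pt F ω) j - z ω j)
          (z ω j - ζ (F.X (w + lam) ω, F.W ω) j)
        have h5 : e (K2S.Fam.pt F ω) j - z ω j + (z ω j - ζ (F.X (w + lam) ω, F.W ω) j) =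
            e (K2S.Fam.pt F ω) j - ζ (F.X (w + lam) ω, F.W ω) j := by ring
        rw [h5] at h4
        linarith

/-- **(FRB)**, without hypotheses. -/
theorem frb_all : FRBStmt := frb_thm ap6r_all

end Pool.K2S
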