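import Pool.Agent.H50.K2.Piece
import Pool.Agent.H35.K2S.FFX3

/-!
# FRB: the cleaned event
-/

set_option autoImplicit false

namespace Pool.K2S

open Finset Real
open Pool.Agent.H49.Ent Pool.Agent.H32.Dense Pool.STK Pool.KA Pool.KSAT Pool.KA.Win Pool.KA.TRC
open Rows

variable {m J : ℕ}

namespace FRB

/-- The labels of the projected windows. -/
noncomputable def labp (F : Fam m J) (w lam K N : ℕ) (i₀ : Fin m) (z : F.Ω → Fin m → ℝ)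
    (ω : F.Ω) (i : Fin N) :
    ((ℕ × (Fin 1 → ℤ)) × (((ℕ × ℤ) × (((ℕ × (Fin m → ℝ)) ×
      ((Fin m → ℤ) × (Fin m → ℤ))) × F.ζ)) × F.ζ)) ×
      (((ℕ × (Fin 1 → ℤ)) × (((ℕ × ℤ) × (((ℕ × (Fin m → ℝ)) ×
      ((Fin m → ℤ) × (Fin m → ℤ))) × F.ζ)) × F.ζ)) × ((Fin 1 → ℤ) × ℕ)) :=
  FF.rlab (F.pj i₀ w (F.plab w lam i₀ z)) K i ω

theorem CH_labp (F : Fam m J) {w lam K N : ℕ} (h₂ : w + N * K ≤ J) {i₀ : Fin m}
    {z : F.Ω → Fin m → ℝ} {c : ℝ} (hc : CH F.p (F.plab w lam i₀ z) (K2S.Fam.pt F) ≤ c) :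
    CH F.p (labp F w lam K N i₀ z) (K2S.Fam.pt F) ≤ N * (c + 2 * cc 1) := by
  have h3 := Pool.STK.Q22.CH_pi F.isLaw.nonneg (K2S.Fam.pt F) N (labp F w lam K N i₀ z)
  refine h3.trans ?_
  refine (Finset.sum_le_card_nsmul _ _ (c + 2 * cc 1) fun i _ => ?_).trans ?_
  · refine FF.CH_pj_rlab F ?_ hc
    have : (i.val + 1) * K ≤ N * K := Nat.mul_le_mul_right K i.isLt
    omega
  · rw [Finset.card_univ, Fintype.card_fin, nsmul_eq_mul]

/-- The probability of the piece. -/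
noncomputable def pi0 (δ ε : ℝ) : ℝ := ε / (Real.exp (δ / ε) + 1)

theorem pi0_pos {δ ε : ℝ} (hε : 0 < ε) : 0 < pi0 δ ε := by
  unfold pi0
  have := Real.exp_pos (δ / ε)
  positivity

theorem Pe_split {Ω : Type} [Fintype Ω] (p : Ω → ℝ) (A N : Ω → Prop) :
    Pe p A = Pe p (fun ω => A ω ∧ N ω) + Pe p (fun ω => A ω ∧ ¬ N ω) := by
  classical
  simp_rw [Pe_eq]
  rw [← Finset.sum_add_distrib]
  refine Finset.sum_congr rfl fun ω _ => ?_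
  by_cases h1 : A ω <;> by_cases h2 : N ω <;> simp [h1, h2]

/-- **The cleaned event.** -/
theorem clean {Sx Sy : Type} (F : Fam m J) {i₀ : Fin m} {w lam K N q hb : ℕ}
    (h₂ : w + N * K ≤ J) (h₂' : w + lam ≤ J) (hq1 : q + 3 ≤ hb) (hq2 : q + 2 ≤ lam)
    {A : F.Ω → Prop} (hA : 0 < Pe F.p A) {κ δ ε : ℝ} (hδ : N * (FF.vis m + 2 * cc 1) ≤ δ)
    (hδ0 : 0 < δ) (hε : 0 < ε) (hε1 : 4 * ε < 1)
    (hκ : 2 * |Real.log ε| + 2 * |Real.log (pi0 δ ε)| + 8 * Real.log 2 ≤ κ)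
    (hs₁ : Stb F.p κ A (Ball (1 / 2 ^ q) (K2S.Fam.pt F) F.d))
    (hn₁ : ¬ Ball (1 / 2 ^ q) (K2S.Fam.pt F) F.d A)
    (hLb : Lb F i₀ hb A) (hCn : Cn F i₀ lam w A) (X : F.Ω → Sx) (Y : F.Ω → Sy) :
    ∃ A' : F.Ω → Prop, Sub A' A ∧ 0 < Pe F.p A' ∧ pi0 δ ε / 4 * Pe F.p A ≤ Pe F.p A' ∧
      (1 - 4 * ε) * CH (Pool.Agent.H49.Ent.cond F.p A' True) X Y ≤
        CH (Pool.Agent.H49.Ent.cond F.p A True) X Y ∧
      ∃ (z : F.Ω → Fin m → ℝ) (e n : (Fin m → ℤ) × (ℕ × F.ζ) → Fin m → ℝ),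
        Det F.p (fun ω => (F.l ω, (F.T1 w ω, F.Z ω))) z ∧
        (∀ ω, A' ω → ∀ j, |z ω j| ≤ 4) ∧
        (∀ ω, A ω → ∀ j, |e (K2S.Fam.pt F ω) j - z ω j| ≤ 2 * ((2 : ℝ) ^ lam)⁻¹) ∧
        OnL i₀ (1 / 2 ^ lam) (K2S.Fam.pt F) F.d A e n ∧
        NonConc (Pool.Agent.H49.Ent.cond F.p A' True) F.d (K2S.Fam.pt F)
          (blR (1 / 2 ^ q)) ε ∧
        Det (Pool.Agent.H49.Ent.cond F.p A' True) (K2S.Fam.pt F) (labp F w lam K N i₀ z) := by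
  classical
  have hp := F.isLaw
  have hl2 : 0 < Real.log 2 := Real.log_pos (by norm_num)
  have hπ := pi0_pos (δ := δ) hε
  have hε2 : ε ≤ 1 / 2 := by linarith
  have aε : 0 ≤ |Real.log ε| := abs_nonneg _
  have aπ : 0 ≤ |Real.log (pi0 δ ε)| := abs_nonneg _
  -- numbers
  have hκε : Real.exp (-κ) ≤ ε := by
    have h1 := neg_abs_le (Real.log ε)
    have h2 : Real.exp (-κ) ≤ Real.exp (Real.log ε) := Real.exp_le_exp.2 (by linarith)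
    rwa [Real.exp_log hε] at h2
  -- the spread event
  obtain ⟨e₀, n₀, hfr⟩ := hLb
  obtain ⟨e, n, ζ, hon, hcn⟩ := hCn
  obtain ⟨A₁, hA₁⟩ : ∃ A₁ : F.Ω → Prop,
    A₁ = fun ω => A ω ∧ ¬ Thin (1 / 2 ^ q) (K2S.Fam.pt F) F.d A ω := ⟨_, rfl⟩
  have hsub1 : Sub A₁ A := by rw [hA₁]; exact fun ω h => h.1
  have hP1 : (1 - ε) * Pe F.p A ≤ Pe F.p A₁ := by
    have h1 := hs₁.thin_lt hn₁
    have h := Pe_split F.p A (Thin (1 / 2 ^ q) (K2S.Fam.pt F) F.d A)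
    have h2 := mul_le_mul_of_nonneg_right hκε hA.le
    rw [hA₁]
    linarith
  have hA1 : 0 < Pe F.p A₁ := lt_of_lt_of_le (mul_pos (by linarith) hA) hP1
  have hspr : Spread (1 / 2 ^ q) (K2S.Fam.pt F) F.d A₁ := by
    rw [hA₁]
    exact spread_of_not_thin _ _ _ _
  have hsI := (hfr.sub hsub1).spreadI hspr
  have pq : (0 : ℝ) < 2 ^ q := by positivity
  have hrb : (1 : ℝ) / 2 ^ hb ≤ 1 / 2 ^ q / 8 := by
    rw [div_div]
    refine one_div_le_one_div_of_le (by positivity) ?_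
    calc (2 : ℝ) ^ q * 8 = 2 ^ (q + 3) := by rw [pow_add]; norm_num
      _ ≤ _ := pow_le_pow_right₀ (by norm_num) hq1
  have hrl : (1 : ℝ) / 2 ^ lam ≤ 1 / 2 ^ q / 4 := by
    rw [div_div]
    refine one_div_le_one_div_of_le (by positivity) ?_
    calc (2 : ℝ) ^ q * 4 = 2 ^ (q + 2) := by rw [pow_add]; norm_num
      _ ≤ _ := pow_le_pow_right₀ (by norm_num) hq2
  have hq0 : (0 : ℝ) < 1 / 2 ^ q := by positivity
  have hbd : ∀ ω, A₁ ω → ∀ j, |e (K2S.Fam.pt F ω) j| ≤ 2 := fun ω hω j =>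
    OnL.bound (hfr.sub hsub1) (hon.sub hsub1) hsI (by linarith) (by linarith) ω hω j
  -- the frame
  obtain ⟨z, hz⟩ : ∃ z : F.Ω → Fin m → ℝ,
    z = fun ω j => (⌊(2 : ℝ) ^ lam * ζ (slam F w ω) j⌋ : ℝ) / 2 ^ lam := ⟨_, rfl⟩
  have hlam1 : ((2 : ℝ) ^ lam)⁻¹ ≤ 1 := by
    rw [inv_le_one_iff₀]
    right
    exact one_le_pow₀ (by norm_num)
  have hez : ∀ ω, A ω → ∀ j, |e (K2S.Fam.pt F ω) j - z ω j| ≤
      ((2 : ℕ) : ℝ) * ((2 : ℝ) ^ lam)⁻¹ := by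
    intro ω hω j
    have h1 := hcn ω hω j
    have h2 := grid_near lam (ζ (slam F w ω) j)
    rw [one_div] at h1
    rw [hz]
    push_cast
    calc |e (K2S.Fam.pt F ω) j - (⌊(2 : ℝ) ^ lam * ζ (slam F w ω) j⌋ : ℝ) / 2 ^ lam|
        = |(e (K2S.Fam.pt F ω) j - ζ (slam F w ω) j) +
          (ζ (slam F w ω) j - (⌊(2 : ℝ) ^ lam * ζ (slam F w ω) j⌋ : ℝ) / 2 ^ lam)| := by
          congr 1
          ring
      _ ≤ _ := (abs_add_le _ _).trans (by linarith)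
  have hz4 : ∀ ω, A₁ ω → ∀ j, |z ω j| ≤ 4 := by
    intro ω hω j
    have h1 := hez ω (hsub1 ω hω) j
    have h2 := hbd ω hω j
    have h3 := abs_sub_abs_le_abs_sub (z ω j) (e (K2S.Fam.pt F ω) j)
    rw [abs_sub_comm] at h3
    push_cast at h1
    linarith
  have hdet : Det F.p (fun ω => (F.l ω, (F.T1 w ω, F.Z ω))) z := by
    intro ω ω' _ _ h
    have e1 := Prod.ext_iff.mp h
    have e2 := Prod.ext_iff.mp e1.2
    have e3 : slam F w ω = slam F w ω' := Prod.ext e1.1 (Prod.ext e2.2 e2.1)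
    rw [hz]
    simp only
    rw [e3]
  -- the labels
  have hlaw1 := isLaw_cond hp hA1
  have hA1r : ∀ ω, 0 < (F.res A₁ True hlaw1).p ω → A₁ ω := fun ω hω => by
    have h1 := (cond_pos_iff F.isLaw.nonneg A₁ True ω).1 hω
    simpa using h1.2
  have hvis : CH (F.res A₁ True hlaw1).p
      ((F.res A₁ True hlaw1).plab w lam i₀ z) (K2S.Fam.pt (F.res A₁ True hlaw1)) ≤ FF.vis m := by
    refine Plk.plab_pt (F.res A₁ True hlaw1) (w := w) (lam := lam) h₂' (i0 := i₀) (z := z)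
      (b := 4) (by norm_num) (fun ω hω j => hz4 ω (hA1r ω hω) j)
      (pt := K2S.Fam.pt (F.res A₁ True hlaw1)) (fun _ _ _ _ h => h) (e := e) (n := n) ?_ (q := 2)
      ?_ ?_
    · intro ω hω j
      have := hon ω (hsub1 ω (hA1r ω hω)) j
      rw [one_div] at this
      exact this
    · intro ω hω j
      exact hez ω (hsub1 ω (hA1r ω hω)) j
    · intro ω j
      exact ⟨⌊(2 : ℝ) ^ lam * ζ (slam F w ω) j⌋, by rw [hz]⟩
  have hCH := CH_labp (F.res A₁ True hlaw1) (K := K) (N := N) h₂ hvis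
  have hCH' : CH (Pool.Agent.H49.Ent.cond F.p A₁ True) (labp F w lam K N i₀ z)
      (K2S.Fam.pt F) ≤ δ := le_trans hCH hδ
  obtain ⟨B, hB1, hB2, hB3⟩ := exists_piece hlaw1 (labp F w lam K N i₀ z) (K2S.Fam.pt F)
    hε (by linarith) hCH' hδ0 X Y le_rfl
  rw [Piece.cond_inter hA1.ne'] at hB3
  rw [Pe_cond, le_div_iff₀ hA1] at hB1
  obtain ⟨A₂, hA₂⟩ : ∃ A₂ : F.Ω → Prop, A₂ = fun ω => A₁ ω ∧ B ω := ⟨_, rfl⟩
  rw [← hA₂] at hB1 hB3
  have hsub2 : Sub A₂ A₁ := by rw [hA₂]; exact fun ω h => h.1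
  have hsubA : Sub A₂ A := hsub2.trans hsub1
  have hB1' : pi0 δ ε * Pe F.p A₁ ≤ Pe F.p A₂ := hB1
  have hA2 : 0 < Pe F.p A₂ := lt_of_lt_of_le (mul_pos hπ hA1) hB1'
  have hP2 : pi0 δ ε / 2 * Pe F.p A ≤ Pe F.p A₂ := by
    have h1 : 1 / 2 * Pe F.p A ≤ Pe F.p A₁ := by
      refine le_trans ?_ hP1
      exact mul_le_mul_of_nonneg_right (by linarith) hA.le
    have h2 := mul_le_mul_of_nonneg_left h1 hπ.le
    linarith
  -- the cost
  obtain ⟨a₂, ha₂⟩ : ∃ a₂, a₂ = Real.log 2 - Real.log (pi0 δ ε) := ⟨_, rfl⟩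
  have hexp : Real.exp (-a₂) = pi0 δ ε / 2 := by
    rw [ha₂, neg_sub, Real.exp_sub, Real.exp_log hπ, Real.exp_log (by norm_num)]
  have hP2' : Real.exp (-a₂) * Pe F.p A ≤ Pe F.p A₂ := by rw [hexp]; exact hP2
  have ha₂κ : a₂ + 2 * |Real.log ε| + 2 * Real.log 2 ≤ κ := by
    rw [ha₂]
    have h1 := neg_abs_le (Real.log (pi0 δ ε))
    linarith
  have hexpκ : Real.exp (-κ) * Pe F.p A ≤ Pe F.p A₂ := by
    refine le_trans ?_ hP2'
    exact mul_le_mul_of_nonneg_right (Real.exp_le_exp.2 (by linarith)) hA.le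
  have t1 := hs₁.sub (Ball.hered _ _ _) hsubA hP2'
  have u1 : ¬ Ball (1 / 2 ^ q) (K2S.Fam.pt F) F.d A₂ := fun h => hn₁ (hs₁.of_sub hsubA hexpκ h)
  rw [ball_fn'] at t1 u1
  obtain ⟨Np, hNp⟩ : ∃ Np, Np = Pop (Pool.Agent.H49.Ent.cond F.p A₂ True) F.d (K2S.Fam.pt F)
    (blR (1 / 2 ^ q)) (Real.exp (-((κ - a₂) / 2))) := ⟨_, rfl⟩
  have hcl := Stb.clean hp (κ := κ - a₂) (by linarith) hA2 t1 u1 hNp
  have hpt := Stb.point hp (κ := κ - a₂) hA2 t1 u1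
  rw [Pe_cond, div_le_iff₀ hA2] at hpt
  have hρε : Real.exp (-((κ - a₂) / 2)) ≤ ε := by
    have h1 := neg_abs_le (Real.log ε)
    have h2 : Real.exp (-((κ - a₂) / 2)) ≤ Real.exp (Real.log ε) :=
      Real.exp_le_exp.2 (by linarith)
    rwa [Real.exp_log hε] at h2
  have hN2 : Pe F.p (fun ω => A₂ ω ∧ Np ω) ≤ ε * Pe F.p A₂ := by
    rw [hNp]
    exact hpt.trans (mul_le_mul_of_nonneg_right hρε hA2.le)
  obtain ⟨A', hA'⟩ : ∃ A' : F.Ω → Prop, A' = fun ω => A₂ ω ∧ ¬ Np ω := ⟨_, rfl⟩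
  have hsub3 : Sub A' A₂ := by rw [hA']; exact fun ω h => h.1
  have hP3 : (1 - ε) * Pe F.p A₂ ≤ Pe F.p A' := by
    have h := Pe_split F.p A₂ Np
    rw [hA']
    linarith
  have hA3 : 0 < Pe F.p A' := lt_of_lt_of_le (mul_pos (by linarith) hA2) hP3
  have hnc := hcl.2
  rw [← hA'] at hnc
  refine ⟨A', hsub3.trans hsubA, hA3, ?_, ?_, z, e, n, hdet,
    fun ω hω => hz4 ω (hsub2 ω (hsub3 ω hω)), ?_, hon, hnc.mono (isLaw_cond hp hA3) hρε, ?_⟩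
  · have h1 : 1 / 2 * Pe F.p A₂ ≤ Pe F.p A' := by
      refine le_trans ?_ hP3
      exact mul_le_mul_of_nonneg_right (by linarith) hA2.le
    linarith
  · -- the conditional entropies
    have hp' := F.isLaw
    have s1 := Piece.CH_sub hp' hsub1 hA X Y
    have s3 := Piece.CH_sub hp' hsub3 hA2 X Y
    have c0 := CH_nonneg (isLaw_cond hp hA).nonneg X Y
    have c1 := CH_nonneg (isLaw_cond hp hA1).nonneg X Y
    have c2 := CH_nonneg (isLaw_cond hp hA2).nonneg X Y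
    have c3 := CH_nonneg (isLaw_cond hp hA3).nonneg X Y
    obtain ⟨C0, hC0⟩ : ∃ C0, C0 = CH (Pool.Agent.H49.Ent.cond F.p A True) X Y := ⟨_, rfl⟩
    obtain ⟨C1, hC1⟩ : ∃ C1, C1 = CH (Pool.Agent.H49.Ent.cond F.p A₁ True) X Y := ⟨_, rfl⟩
    obtain ⟨C2, hC2⟩ : ∃ C2, C2 = CH (Pool.Agent.H49.Ent.cond F.p A₂ True) X Y := ⟨_, rfl⟩
    obtain ⟨C3, hC3⟩ : ∃ C3, C3 = CH (Pool.Agent.H49.Ent.cond F.p A' True) X Y := ⟨_, rfl⟩
    rw [← hC0, ← hC1] at s1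
    rw [← hC2, ← hC3] at s3
    rw [← hC0] at c0
    rw [← hC1] at c1 hB3
    rw [← hC2] at c2 hB3
    rw [← hC3] at c3
    rw [← hC0, ← hC3]
    have r1 : (1 - ε) * C1 ≤ C0 := by
      have h1 : (1 - ε) * Pe F.p A * C1 ≤ Pe F.p A₁ * C1 := mul_le_mul_of_nonneg_right hP1 c1
      have h2 : Pe F.p A * ((1 - ε) * C1) ≤ Pe F.p A * C0 := by
        calc Pe F.p A * ((1 - ε) * C1) = (1 - ε) * Pe F.p A * C1 := by ring
          _ ≤ _ := h1.trans s1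
      exact le_of_mul_le_mul_left h2 hA
    have r2 : (1 - 2 * ε) * C2 ≤ C1 := by
      rw [le_div_iff₀ (by linarith)] at hB3
      linarith
    have r3 : (1 - ε) * C3 ≤ C2 := by
      have h1 : (1 - ε) * Pe F.p A₂ * C3 ≤ Pe F.p A' * C3 := mul_le_mul_of_nonneg_right hP3 c3
      have h2 : Pe F.p A₂ * ((1 - ε) * C3) ≤ Pe F.p A₂ * C2 := by
        calc Pe F.p A₂ * ((1 - ε) * C3) = (1 - ε) * Pe F.p A₂ * C3 := by ring
          _ ≤ _ := h1.trans s3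
      exact le_of_mul_le_mul_left h2 hA2
    have r4 : (1 - ε) * ((1 - 2 * ε) * ((1 - ε) * C3)) ≤ C0 := by
      refine le_trans ?_ r1
      refine mul_le_mul_of_nonneg_left ?_ (by linarith)
      refine le_trans ?_ r2
      exact mul_le_mul_of_nonneg_left r3 (by linarith)
    refine le_trans ?_ r4
    have r5 : (1 - 4 * ε) ≤ (1 - ε) * ((1 - 2 * ε) * (1 - ε)) := by
      have := mul_nonneg (sq_nonneg ε) (by linarith : 0 ≤ 5 - 2 * ε)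
      nlinarith
    calc (1 - 4 * ε) * C3 ≤ (1 - ε) * ((1 - 2 * ε) * (1 - ε)) * C3 :=
          mul_le_mul_of_nonneg_right r5 c3
      _ = _ := by ring
  · intro ω hω j
    have := hez ω hω j
    push_cast at this
    exact this
  · intro ω ω' hω hω' h
    have b1 : A' ω := by
      have := (cond_pos_iff hp.nonneg A' True ω).1 hω
      simpa using this.2
    have b2 : A' ω' := by
      have := (cond_pos_iff hp.nonneg A' True ω').1 hω'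
      simpa using this.2
    have c1 := hsub3 ω b1
    have c2 := hsub3 ω' b2
    rw [hA₂] at c1 c2
    exact hB2 ω ω' c1.2 c2.2 h

/-- The projected windows are nonconcentrated. -/
theorem spn_labp (F : Fam m J) {w lam x1 h K N i : ℕ} (hc : x1 + 2 ≤ h)
    {i₀ : Fin m} {z : F.Ω → Fin m → ℝ} {ρ : ℝ}
    (h2 : NonConc F.p (fun ω => F.d ω i₀) (K2S.Fam.pt F)
      (fun D (v : ℝ) => |D - v| ≤ ((2 : ℝ) ^ x1)⁻¹) ρ)
    (hE : Det F.p (K2S.Fam.pt F) (labp F w lam K N i₀ z)) (hi : i < N) :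
    FF.Spn 0 h F.p (F.pj i₀ w (F.plab w lam i₀ z)).d
      (FF.rlab (F.pj i₀ w (F.plab w lam i₀ z)) K i) ρ := by
  intro ω hω v B
  have hdet : Det F.p (K2S.Fam.pt F) (FF.rlab (F.pj i₀ w (F.plab w lam i₀ z)) K i) := by
    intro ω ω' a b e
    have e1 := hE ω ω' a b e
    exact congrFun e1 ⟨i, hi⟩
  refine le_trans (le_of_eq ?_) (Plk.interval_conc F (w := w) hc (Sd := F.plab w lam i₀ z)
    (L := FF.rlab (F.pj i₀ w (F.plab w lam i₀ z)) K i) h2 hdet ω hω v B)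
  refine Finset.sum_congr rfl fun ω' _ => ?_
  by_cases h : ∃ c : Fin 0 → ℝ, ∀ j, |(F.pj i₀ w (F.plab w lam i₀ z)).d ω' j - v j -
      ∑ i, c i * B i j| ≤ 4 / 2 ^ h
  · rw [if_pos h, if_pos h]
  · rw [if_neg h, if_neg h]

end FRB

end Pool.K2S
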