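import Pool.Agent.H64.K2.Plk2
import Pool.Agent.H20.K2.CPY

/-!
# Lines through two samples with the same point

A label `z` whose position space is a curve over the chart coordinate `i0`: inside a label the
points `x` lie on a line with slope `sg`, up to `C / 2 ^ P'`, and the chart coordinate is known to
`C / 2 ^ a`. Two samples with the same point to the precision `P'` and the same side information
are conditionally independent. If the rows `(P, P']` of the point are not full, then the slopes of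
the two labels agree up to `2 ^ (-(P - a))` with positive probability.
-/

set_option autoImplicit false

namespace Pool.KA

open Finset Real
open Pool.Agent.H49.Ent Pool.Agent.H32.Dense Pool.STK

namespace PU

variable {Ω S U : Type} [Fintype Ω] {m : ℕ}

/-! ### Small tools -/

theorem log_pow_bd {c : ℝ} (hc : 0 ≤ c) (k : ℕ) :
    Real.log (2 * (c * 2 ^ k) + 1) ≤ k * Real.log 2 + Real.log (2 * c + 1) := by
  have h1 : (1 : ℝ) ≤ 2 ^ k := one_le_pow₀ (by norm_num)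
  rw [← Real.log_pow, ← Real.log_mul (by positivity) (by positivity)]
  refine Real.log_le_log (by positivity) ?_
  nlinarith

/-- Integers which vary by `c 2 ^ e`. -/
theorem int_pow_bd {T : Type} {q : Ω → ℝ} (hq : IsLaw q) (X : Ω → ℤ) (W : Ω → T) {c : ℝ}
    (hc : 0 ≤ c) (e : Ω → ℕ)
    (h : ∀ ω ω', 0 < q ω → 0 < q ω' → W ω = W ω' → |((X ω - X ω' : ℤ) : ℝ)| ≤ c * 2 ^ e ω) :
    CH q X W ≤ Ex q (fun ω => (e ω : ℝ)) * Real.log 2 + Real.log (2 * c + 1) := by
  refine (CH_le_int hq.nonneg hq.sum_one X W (fun ω => c * 2 ^ e ω) h).trans ?_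
  have h1 : Ex q (fun ω => Real.log (2 * (c * 2 ^ e ω) + 1)) ≤
      Ex q (fun ω => Real.log 2 * (e ω : ℝ) + Real.log (2 * c + 1)) := by
    refine Ex_mono hq.nonneg fun ω _ => ?_
    have := log_pow_bd hc (e ω)
    linarith
  rw [Ex_add, Ex_smul, Ex_const hq.sum_one] at h1
  linarith

theorem log_const_nonneg {c : ℝ} (hc : 0 ≤ c) : 0 ≤ Real.log (2 * c + 1) :=
  Real.log_nonneg (by linarith)

/-- Digits of a real number. -/
theorem floor_fine {r r' : ℕ} (h : r ≤ r') {y y' : ℝ} (e : ⌊(2 : ℝ) ^ r' * y⌋ = ⌊(2 : ℝ) ^ r' * y'⌋) :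
    ⌊(2 : ℝ) ^ r * y⌋ = ⌊(2 : ℝ) ^ r * y'⌋ := by
  have h1 : fl r' (fun _ : Fin 1 => y) = fl r' (fun _ : Fin 1 => y') := by
    funext _
    exact e
  exact congrFun (Pool.STK.B58.fl_fine h h1) 0

/-- Distance of two real numbers with the same digits. -/
theorem dist_of_floor {r : ℕ} {y y' : ℝ} (e : ⌊(2 : ℝ) ^ r * y⌋ = ⌊(2 : ℝ) ^ r * y'⌋) :
    |y - y'| ≤ 1 / 2 ^ r := by
  have h1 := Plk.abs_sub_lt_of_floor e
  have p1 : (0 : ℝ) < 2 ^ r := by positivity
  rw [← mul_sub, abs_mul, abs_of_pos p1] at h1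
  rw [le_div_iff₀ p1]
  linarith

/-- Distance of a real number to its rounding. -/
theorem dist_floor (r : ℕ) (y : ℝ) : |(⌊(2 : ℝ) ^ r * y⌋ : ℝ) / 2 ^ r - y| ≤ 1 / 2 ^ r := by
  have p1 : (0 : ℝ) < 2 ^ r := by positivity
  have h1 := Int.floor_le ((2 : ℝ) ^ r * y)
  have h2 := Int.lt_floor_add_one ((2 : ℝ) ^ r * y)
  have e1 : (⌊(2 : ℝ) ^ r * y⌋ : ℝ) / 2 ^ r - y = ((⌊(2 : ℝ) ^ r * y⌋ : ℝ) - 2 ^ r * y) / 2 ^ r := by
    field_simp
  rw [e1, abs_div, abs_of_pos p1]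
  refine div_le_div_of_nonneg_right ?_ p1.le
  rw [abs_le]
  constructor <;> linarith

/-! ### The number of common digits of two slopes -/

open Classical in
/-- The number of common digits. -/
noncomputable def kk (sg : Ω → Fin m → ℝ) (M : ℝ) (n : ℕ) (w : Ω × Ω) : ℕ :=
  Nat.findGreatest (fun k => ∀ j, |sg w.1 j - sg w.2 j| * 2 ^ k ≤ M) n

omit [Fintype Ω] in
theorem kk_le (sg : Ω → Fin m → ℝ) (M : ℝ) (n : ℕ) (w : Ω × Ω) : kk sg M n w ≤ n :=
  Nat.findGreatest_le n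

omit [Fintype Ω] in
theorem kk_spec {sg : Ω → Fin m → ℝ} {M : ℝ} {w : Ω × Ω}
    (h : ∀ j, |sg w.1 j - sg w.2 j| ≤ M) (n : ℕ) (j : Fin m) :
    |sg w.1 j - sg w.2 j| * 2 ^ kk sg M n w ≤ M := by
  classical
  have h1 := Nat.findGreatest_spec (P := fun k => ∀ j, |sg w.1 j - sg w.2 j| * 2 ^ k ≤ M)
    (m := 0) (n := n) (Nat.zero_le _) (fun j => by rw [pow_zero, mul_one]; exact h j)
  exact h1 j

omit [Fintype Ω] in
theorem kk_lt {sg : Ω → Fin m → ℝ} {M : ℝ} {w : Ω × Ω} {n : ℕ} (h : kk sg M n w < n) :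
    ∃ j, M < |sg w.1 j - sg w.2 j| * 2 ^ (kk sg M n w + 1) := by
  classical
  have h1 := Nat.findGreatest_is_greatest (P := fun k => ∀ j, |sg w.1 j - sg w.2 j| * 2 ^ k ≤ M)
    (n := n) (k := kk sg M n w + 1) (Nat.lt_succ_self _) h
  push Not at h1
  exact h1


/-- The data of the lemma. -/
structure Dat (p : Ω → ℝ) (x : Ω → Fin m → ℝ) (W : Ω → S) (z : Ω → U) (sg n0 : Ω → Fin m → ℝ)
    (i0 : Fin m) (a P P' : ℕ) (C s : ℝ) : Prop where
  law : IsLaw p
  aP : a ≤ P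
  PP : P ≤ P'
  C0 : 0 ≤ C
  s0 : 0 ≤ s
  det : Det p (fun ω => (z ω, W ω)) (fun ω => (sg ω, n0 ω))
  sgs : ∀ ω, 0 < p ω → ∀ j, |sg ω j| ≤ s
  hs : ∀ ω, 0 < p ω → ∀ j, |x ω j - n0 ω j - sg ω j * x ω i0| ≤ C / 2 ^ P'
  hy : ∀ ω ω', 0 < p ω → 0 < p ω' → z ω = z ω' → W ω = W ω' → |x ω i0 - x ω' i0| ≤ C / 2 ^ a

/-- Two samples with the same point and the same side information. -/
noncomputable def qq (p : Ω → ℝ) (x : Ω → Fin m → ℝ) (W : Ω → S) (P' : ℕ) : Ω × Ω → ℝ :=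
  cpy p (fun ω => (fl P' (x ω), W ω))

/-- The cell of the chart coordinate. -/
noncomputable def BB (x : Ω → Fin m → ℝ) (sg : Ω → Fin m → ℝ) (i0 : Fin m) (a P : ℕ) (M : ℝ)
    (w : Ω × Ω) : ℤ := ⌊2 ^ (P - kk sg M (P - a) w) * x w.1 i0⌋

/-- The sheet of the second label near the cell of the chart coordinate. -/
noncomputable def v2 (x : Ω → Fin m → ℝ) (sg n0 : Ω → Fin m → ℝ) (i0 : Fin m) (a P : ℕ) (M : ℝ)
    (w : Ω × Ω) : ℤ × ((Fin m → ℤ) × (Fin m → ℤ)) :=
  (BB x sg i0 a P M w, (fun j => ⌊2 ^ kk sg M (P - a) w * sg w.2 j⌋,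
    fun j => ⌊2 ^ P * (n0 w.2 j + sg w.2 j *
      ((BB x sg i0 a P M w : ℝ) / 2 ^ (P - kk sg M (P - a) w)))⌋))

section Main

variable {p : Ω → ℝ} {x : Ω → Fin m → ℝ} {W : Ω → S} {z : Ω → U} {sg n0 : Ω → Fin m → ℝ}
  {i0 : Fin m} {a P P' : ℕ} {C s : ℝ}

theorem Dat.q_law (D : Dat p x W z sg n0 i0 a P P' C s) : IsLaw (qq p x W P') :=
  (cpy_thm Ω _ p D.law _).1

theorem Dat.sup (D : Dat p x W z sg n0 i0 a P P' C s) {w : Ω × Ω} (hw : 0 < qq p x W P' w) :
    0 < p w.1 ∧ 0 < p w.2 ∧ fl P' (x w.1) = fl P' (x w.2) ∧ W w.1 = W w.2 := by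
  obtain ⟨h1, h2, h3⟩ := (cpy_thm Ω _ p D.law _).2.2.2.2.1 w hw
  have h4 := Prod.ext_iff.mp h3
  exact ⟨h1, h2, h4.1, h4.2⟩

theorem Dat.near (D : Dat p x W z sg n0 i0 a P P' C s) {w : Ω × Ω} (hw : 0 < qq p x W P' w)
    (j : Fin m) : |x w.1 j - x w.2 j| ≤ 1 / 2 ^ P' :=
  dist_of_floor (congrFun (D.sup hw).2.2.1 j)

theorem Dat.sgM (D : Dat p x W z sg n0 i0 a P P' C s) {w : Ω × Ω} (hw : 0 < qq p x W P' w)
    (j : Fin m) : |sg w.1 j - sg w.2 j| ≤ 2 * s + 1 := by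
  have h := D.sup hw
  have h1 := D.sgs _ h.1 j
  have h2 := D.sgs _ h.2.1 j
  have h3 := abs_sub (sg w.1 j) (sg w.2 j)
  linarith

theorem Dat.kk_spec (D : Dat p x W z sg n0 i0 a P P' C s) {w : Ω × Ω}
    (hw : 0 < qq p x W P' w) (j : Fin m) :
    |sg w.1 j - sg w.2 j| * 2 ^ kk sg (2 * s + 1) (P - a) w ≤ 2 * s + 1 :=
  PU.kk_spec (fun j => D.sgM hw j) _ j

/-- The cell from the second sample. -/
theorem Dat.BB_snd (D : Dat p x W z sg n0 i0 a P P' C s) {w : Ω × Ω}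
    (hw : 0 < qq p x W P' w) :
    BB x sg i0 a P (2 * s + 1) w = ⌊2 ^ (P - kk sg (2 * s + 1) (P - a) w) * x w.2 i0⌋ := by
  have h := (D.sup hw).2.2.1
  have h1 : ⌊2 ^ P' * x w.1 i0⌋ = ⌊2 ^ P' * x w.2 i0⌋ := congrFun h i0
  have hPP := D.PP
  exact floor_fine (by omega) h1

omit [Fintype Ω] in
/-- The chart coordinate is near the cell. -/
theorem Dat.BB_near (w : Ω × Ω) :
    |(BB x sg i0 a P (2 * s + 1) w : ℝ) / 2 ^ (P - kk sg (2 * s + 1) (P - a) w) - x w.1 i0| ≤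
      1 / 2 ^ (P - kk sg (2 * s + 1) (P - a) w) := dist_floor _ _

theorem Dat.BB_near2 (D : Dat p x W z sg n0 i0 a P P' C s) {w : Ω × Ω}
    (hw : 0 < qq p x W P' w) :
    |(BB x sg i0 a P (2 * s + 1) w : ℝ) / 2 ^ (P - kk sg (2 * s + 1) (P - a) w) - x w.2 i0| ≤
      1 / 2 ^ (P - kk sg (2 * s + 1) (P - a) w) := by
  rw [D.BB_snd hw]
  exact dist_floor _ _

/-- The two sheets coincide near the cell. -/
theorem Dat.sheets (D : Dat p x W z sg n0 i0 a P P' C s) {w : Ω × Ω}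
    (hw : 0 < qq p x W P' w) (j : Fin m) :
    |2 ^ P * (n0 w.2 j + sg w.2 j *
      ((BB x sg i0 a P (2 * s + 1) w : ℝ) / 2 ^ (P - kk sg (2 * s + 1) (P - a) w))) -
      2 ^ P * (n0 w.1 j + sg w.1 j *
      ((BB x sg i0 a P (2 * s + 1) w : ℝ) / 2 ^ (P - kk sg (2 * s + 1) (P - a) w)))| ≤
      2 * C + 3 * s + 2 := by
  obtain ⟨h1, h2, h3, h4⟩ := D.sup hw
  have b1 := Dat.BB_near (x := x) (sg := sg) (i0 := i0) (a := a) (P := P) (s := s) w
  have k1 := D.kk_spec hw j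
  have hk := kk_le sg (2 * s + 1) (P - a) w
  obtain ⟨k, hk'⟩ : ∃ k, k = kk sg (2 * s + 1) (P - a) w := ⟨_, rfl⟩
  rw [← hk'] at b1 k1 hk ⊢
  obtain ⟨b, hb⟩ : ∃ b : ℝ, b = (BB x sg i0 a P (2 * s + 1) w : ℝ) / 2 ^ (P - k) := ⟨_, rfl⟩
  rw [← hb] at b1 ⊢
  have aP := D.aP
  have PP := D.PP
  have C0 := D.C0
  have s0 := D.s0
  have e1 := D.hs _ h1 j
  have e2 := D.hs _ h2 j
  have e3 := D.near hw j
  have e4 := D.near hw i0
  have e5 := D.sgs _ h2 j
  obtain ⟨r, hr⟩ : ∃ r : ℝ, r = 1 / 2 ^ P' := ⟨_, rfl⟩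
  have hr0 : 0 ≤ r := by rw [hr]; positivity
  have eC : C / 2 ^ P' = C * r := by rw [hr]; ring
  rw [eC] at e1 e2
  rw [← hr] at e3 e4
  have hP : (0 : ℝ) < 2 ^ P := by positivity
  have hrP : 2 ^ P * r ≤ 1 := by
    rw [hr, mul_one_div, div_le_one (by positivity)]
    exact pow_le_pow_right₀ (by norm_num) PP
  have i1 : (n0 w.2 j + sg w.2 j * b) - (n0 w.1 j + sg w.1 j * b) =
      (x w.1 j - n0 w.1 j - sg w.1 j * x w.1 i0) - (x w.2 j - n0 w.2 j - sg w.2 j * x w.2 i0) -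
      (x w.1 j - x w.2 j) + sg w.2 j * (x w.1 i0 - x w.2 i0) -
      (sg w.1 j - sg w.2 j) * (b - x w.1 i0) := by ring
  have j1 : |sg w.2 j * (x w.1 i0 - x w.2 i0)| ≤ s * r := by
    rw [abs_mul]
    exact mul_le_mul e5 e4 (abs_nonneg _) s0
  have j2 : 2 ^ P * |(sg w.1 j - sg w.2 j) * (b - x w.1 i0)| ≤ 2 * s + 1 := by
    rw [abs_mul]
    have e6 : (2 : ℝ) ^ P = 2 ^ k * 2 ^ (P - k) := by
      rw [← pow_add]; congr 1; omega
    have e7 : 2 ^ (P - k) * |b - x w.1 i0| ≤ 1 := by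
      rw [le_div_iff₀ (by positivity)] at b1
      linarith
    calc (2 : ℝ) ^ P * (|sg w.1 j - sg w.2 j| * |b - x w.1 i0|) =
        (|sg w.1 j - sg w.2 j| * 2 ^ k) * (2 ^ (P - k) * |b - x w.1 i0|) := by rw [e6]; ring
      _ ≤ (2 * s + 1) * 1 := mul_le_mul k1 e7 (by positivity) (by positivity)
      _ = 2 * s + 1 := mul_one _
  have t1 := abs_sub ((x w.1 j - n0 w.1 j - sg w.1 j * x w.1 i0) -
      (x w.2 j - n0 w.2 j - sg w.2 j * x w.2 i0) -
      (x w.1 j - x w.2 j) + sg w.2 j * (x w.1 i0 - x w.2 i0))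
      ((sg w.1 j - sg w.2 j) * (b - x w.1 i0))
  have t2 := abs_add_le ((x w.1 j - n0 w.1 j - sg w.1 j * x w.1 i0) -
      (x w.2 j - n0 w.2 j - sg w.2 j * x w.2 i0) - (x w.1 j - x w.2 j))
      (sg w.2 j * (x w.1 i0 - x w.2 i0))
  have t3 := abs_sub ((x w.1 j - n0 w.1 j - sg w.1 j * x w.1 i0) -
      (x w.2 j - n0 w.2 j - sg w.2 j * x w.2 i0)) (x w.1 j - x w.2 j)
  have t4 := abs_sub (x w.1 j - n0 w.1 j - sg w.1 j * x w.1 i0)
      (x w.2 j - n0 w.2 j - sg w.2 j * x w.2 i0)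
  rw [← mul_sub, abs_mul, abs_of_pos hP, i1]
  have t5 : |x w.1 j - n0 w.1 j - sg w.1 j * x w.1 i0 -
      (x w.2 j - n0 w.2 j - sg w.2 j * x w.2 i0) - (x w.1 j - x w.2 j) +
      sg w.2 j * (x w.1 i0 - x w.2 i0) - (sg w.1 j - sg w.2 j) * (b - x w.1 i0)| ≤
      (2 * C + 1 + s) * r + |(sg w.1 j - sg w.2 j) * (b - x w.1 i0)| := by
    linarith
  calc (2 : ℝ) ^ P * |x w.1 j - n0 w.1 j - sg w.1 j * x w.1 i0 -
      (x w.2 j - n0 w.2 j - sg w.2 j * x w.2 i0) - (x w.1 j - x w.2 j) +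
      sg w.2 j * (x w.1 i0 - x w.2 i0) - (sg w.1 j - sg w.2 j) * (b - x w.1 i0)| ≤
      2 ^ P * ((2 * C + 1 + s) * r + |(sg w.1 j - sg w.2 j) * (b - x w.1 i0)|) :=
        mul_le_mul_of_nonneg_left t5 hP.le
    _ = (2 * C + 1 + s) * (2 ^ P * r) + 2 ^ P * |(sg w.1 j - sg w.2 j) * (b - x w.1 i0)| := by
        ring
    _ ≤ (2 * C + 1 + s) * 1 + (2 * s + 1) := by
        refine add_le_add (mul_le_mul_of_nonneg_left hrP (by positivity)) j2
    _ = 2 * C + 3 * s + 2 := by ring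

/-- Entropies of functions of one sample. -/
theorem Dat.CH1 (D : Dat p x W z sg n0 i0 a P P' C s) {T V : Type} (f : Ω → T) (g : Ω → V) :
    CH (qq p x W P') (fun w => f w.1) (fun w => g w.1) = CH p f g :=
  (cpy_thm Ω _ p D.law _).2.1.CH f g

theorem Dat.CH2 (D : Dat p x W z sg n0 i0 a P P' C s) {T V : Type} (f : Ω → T) (g : Ω → V) :
    CH (qq p x W P') (fun w => f w.2) (fun w => g w.2) = CH p f g :=
  (cpy_thm Ω _ p D.law _).2.2.1.CH f g

/-- The first label and the cell. -/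
theorem Dat.one (D : Dat p x W z sg n0 i0 a P P' C s) :
    CH (qq p x W P') (fun w => (z w.1, BB x sg i0 a P (2 * s + 1) w))
      (fun w => (kk sg (2 * s + 1) (P - a) w, W w.1)) ≤
      CH p z W + Ex (qq p x W P') (fun w =>
        ((P - kk sg (2 * s + 1) (P - a) w - a : ℕ) : ℝ)) * Real.log 2 +
        Real.log (2 * (C + 1) + 1) := by
  have hq := D.q_law
  have h0 := hq.nonneg
  have C0 := D.C0
  have aP := D.aP
  have c1 := CH_chain h0 (fun w => BB x sg i0 a P (2 * s + 1) w) (fun w : Ω × Ω => z w.1)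
    (fun w => (kk sg (2 * s + 1) (P - a) w, W w.1))
  have c2 : CH (qq p x W P') (fun w => (z w.1, BB x sg i0 a P (2 * s + 1) w))
      (fun w => (kk sg (2 * s + 1) (P - a) w, W w.1)) =
      CH (qq p x W P') (fun w => (BB x sg i0 a P (2 * s + 1) w, z w.1))
      (fun w => (kk sg (2 * s + 1) (P - a) w, W w.1)) := by
    refine CH_congr h0 ?_ ?_ (fun _ _ _ _ e => e) (fun _ _ _ _ e => e)
    · intro w w' _ _ e
      have e1 := Prod.ext_iff.mp (Prod.ext_iff.mp e).1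
      exact Prod.ext e1.2 e1.1
    · intro w w' _ _ e
      have e1 := Prod.ext_iff.mp (Prod.ext_iff.mp e).1
      exact Prod.ext e1.2 e1.1
  have c3 : CH (qq p x W P') (fun w : Ω × Ω => z w.1)
      (fun w => (kk sg (2 * s + 1) (P - a) w, W w.1)) ≤ CH p z W := by
    rw [← D.CH1 z W]
    exact CH_mono_cond h0 fun w w' _ _ e => (Prod.ext_iff.mp e).2
  have c4 := int_pow_bd hq (fun w => BB x sg i0 a P (2 * s + 1) w)
    (fun w => (z w.1, (kk sg (2 * s + 1) (P - a) w, W w.1))) (c := C + 1) (by positivity)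
    (fun w => P - kk sg (2 * s + 1) (P - a) w - a) ?_
  · rw [c2, c1]
    linarith
  · intro w w' hw hw' e
    have e1 := Prod.ext_iff.mp e
    have e2 := Prod.ext_iff.mp e1.2
    simp only at e1 e2
    have s1 := D.sup hw
    have s2 := D.sup hw'
    have hk := kk_le sg (2 * s + 1) (P - a) w
    have y1 := D.hy _ _ s1.1 s2.1 e1.1 e2.2
    unfold BB
    rw [← e2.1]
    refine (Plk.floor_sub_lt (c := C * 2 ^ (P - kk sg (2 * s + 1) (P - a) w - a)) ?_).trans ?_
    · rw [← mul_sub, abs_mul, abs_of_pos (by positivity)]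
      have e3 : (2 : ℝ) ^ (P - kk sg (2 * s + 1) (P - a) w) =
          2 ^ a * 2 ^ (P - kk sg (2 * s + 1) (P - a) w - a) := by
        rw [← pow_add]; congr 1; omega
      have e4 := mul_le_mul_of_nonneg_left y1
        (by positivity : (0 : ℝ) ≤ 2 ^ a * 2 ^ (P - kk sg (2 * s + 1) (P - a) w - a))
      rw [e3]
      refine e4.trans (le_of_eq ?_)
      have e5 : (2 : ℝ) ^ a ≠ 0 := by positivity
      field_simp
    · have : (1 : ℝ) ≤ 2 ^ (P - kk sg (2 * s + 1) (P - a) w - a) :=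
        one_le_pow₀ (by norm_num)
      linarith

/-- The second label and the cell. -/
theorem Dat.two (D : Dat p x W z sg n0 i0 a P P' C s) :
    CH (qq p x W P') (fun w => (z w.2, BB x sg i0 a P (2 * s + 1) w))
      (fun w => (kk sg (2 * s + 1) (P - a) w, W w.1)) ≤
      CH p z W + Ex (qq p x W P') (fun w =>
        ((P - kk sg (2 * s + 1) (P - a) w - a : ℕ) : ℝ)) * Real.log 2 +
        Real.log (2 * (C + 1) + 1) := by
  have hq := D.q_law
  have h0 := hq.nonneg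
  have C0 := D.C0
  have aP := D.aP
  have c1 := CH_chain h0 (fun w => BB x sg i0 a P (2 * s + 1) w) (fun w : Ω × Ω => z w.2)
    (fun w => (kk sg (2 * s + 1) (P - a) w, W w.1))
  have c2 : CH (qq p x W P') (fun w => (z w.2, BB x sg i0 a P (2 * s + 1) w))
      (fun w => (kk sg (2 * s + 1) (P - a) w, W w.1)) =
      CH (qq p x W P') (fun w => (BB x sg i0 a P (2 * s + 1) w, z w.2))
      (fun w => (kk sg (2 * s + 1) (P - a) w, W w.1)) := by
    refine CH_congr h0 ?_ ?_ (fun _ _ _ _ e => e) (fun _ _ _ _ e => e)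
    · intro w w' _ _ e
      have e1 := Prod.ext_iff.mp (Prod.ext_iff.mp e).1
      exact Prod.ext e1.2 e1.1
    · intro w w' _ _ e
      have e1 := Prod.ext_iff.mp (Prod.ext_iff.mp e).1
      exact Prod.ext e1.2 e1.1
  have c3 : CH (qq p x W P') (fun w : Ω × Ω => z w.2)
      (fun w => (kk sg (2 * s + 1) (P - a) w, W w.1)) ≤ CH p z W := by
    rw [← D.CH2 z W]
    refine CH_mono_cond h0 fun w w' hw hw' e => ?_
    have e1 : W w.1 = W w'.1 := (Prod.ext_iff.mp e).2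
    change W w.2 = W w'.2
    rw [← (D.sup hw).2.2.2, ← (D.sup hw').2.2.2, e1]
  have c4 := int_pow_bd hq (fun w => BB x sg i0 a P (2 * s + 1) w)
    (fun w => (z w.2, (kk sg (2 * s + 1) (P - a) w, W w.1))) (c := C + 1) (by positivity)
    (fun w => P - kk sg (2 * s + 1) (P - a) w - a) ?_
  · rw [c2, c1]
    linarith
  · intro w w' hw hw' e
    have e1 := Prod.ext_iff.mp e
    have e2 := Prod.ext_iff.mp e1.2
    simp only at e1 e2
    have s1 := D.sup hw
    have s2 := D.sup hw'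
    have hk := kk_le sg (2 * s + 1) (P - a) w
    have y1 := D.hy _ _ s1.2.1 s2.2.1 e1.1 (by rw [← s1.2.2.2, ← s2.2.2.2, e2.2])
    rw [D.BB_snd hw, D.BB_snd hw', ← e2.1]
    refine (Plk.floor_sub_lt (c := C * 2 ^ (P - kk sg (2 * s + 1) (P - a) w - a)) ?_).trans ?_
    · rw [← mul_sub, abs_mul, abs_of_pos (by positivity)]
      have e3 : (2 : ℝ) ^ (P - kk sg (2 * s + 1) (P - a) w) =
          2 ^ a * 2 ^ (P - kk sg (2 * s + 1) (P - a) w - a) := by
        rw [← pow_add]; congr 1; omega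
      have e4 := mul_le_mul_of_nonneg_left y1
        (by positivity : (0 : ℝ) ≤ 2 ^ a * 2 ^ (P - kk sg (2 * s + 1) (P - a) w - a))
      rw [e3]
      refine e4.trans (le_of_eq ?_)
      have e5 : (2 : ℝ) ^ a ≠ 0 := by positivity
      field_simp
    · have : (1 : ℝ) ≤ 2 ^ (P - kk sg (2 * s + 1) (P - a) w - a) :=
        one_le_pow₀ (by norm_num)
      linarith

/-- The sheet of the second label given the first label and the cell. -/
theorem Dat.three (D : Dat p x W z sg n0 i0 a P P' C s) :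
    CH (qq p x W P') (v2 x sg n0 i0 a P (2 * s + 1))
      (fun w => ((z w.1, BB x sg i0 a P (2 * s + 1) w),
        (kk sg (2 * s + 1) (P - a) w, W w.1))) ≤
      m * Real.log (2 * (4 * s + 3) + 1) + m * Real.log (2 * (2 * (2 * C + 3 * s + 2) + 1) + 1) := by
  have hq := D.q_law
  have h0 := hq.nonneg
  have C0 := D.C0
  have s0 := D.s0
  -- equality of slopes and sheets
  have hsn : ∀ w w', 0 < qq p x W P' w → 0 < qq p x W P' w' → z w.1 = z w'.1 → W w.1 = W w'.1 →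
      sg w.1 = sg w'.1 ∧ n0 w.1 = n0 w'.1 := by
    intro w w' hw hw' e1 e2
    exact Prod.ext_iff.mp (D.det _ _ (D.sup hw).1 (D.sup hw').1 (Prod.ext e1 e2))
  have c1 : CH (qq p x W P') (v2 x sg n0 i0 a P (2 * s + 1))
      (fun w => ((z w.1, BB x sg i0 a P (2 * s + 1) w),
        (kk sg (2 * s + 1) (P - a) w, W w.1))) ≤
      CH (qq p x W P') (fun w => ((v2 x sg n0 i0 a P (2 * s + 1) w).2.1,
        (v2 x sg n0 i0 a P (2 * s + 1) w).2.2))
      (fun w => ((z w.1, BB x sg i0 a P (2 * s + 1) w),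
        (kk sg (2 * s + 1) (P - a) w, W w.1))) := by
    refine CH_mono_left h0 fun w w' _ _ e => ?_
    have e1 := Prod.ext_iff.mp e
    have e2 := Prod.ext_iff.mp (Prod.ext_iff.mp e1.2).1
    exact Prod.ext e2.2 e1.1
  have c2 := CH_subadd h0 (fun w => (v2 x sg n0 i0 a P (2 * s + 1) w).2.1)
    (fun w => (v2 x sg n0 i0 a P (2 * s + 1) w).2.2)
      (fun w => ((z w.1, BB x sg i0 a P (2 * s + 1) w),
        (kk sg (2 * s + 1) (P - a) w, W w.1)))
  have c3 : CH (qq p x W P') (fun w => (v2 x sg n0 i0 a P (2 * s + 1) w).2.1)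
      (fun w => ((z w.1, BB x sg i0 a P (2 * s + 1) w),
        (kk sg (2 * s + 1) (P - a) w, W w.1))) ≤ m * Real.log (2 * (4 * s + 3) + 1) := by
    refine Plk.CH_vec_const hq _ _ ?_
    intro w w' hw hw' e j
    have e1 := Prod.ext_iff.mp e
    have e2 := Prod.ext_iff.mp e1.1
    have e3 := Prod.ext_iff.mp e1.2
    simp only at e1 e2 e3
    obtain ⟨f1, f2⟩ := hsn w w' hw hw' e2.1 e3.2
    have g1 := D.kk_spec hw j
    have g2 := D.kk_spec hw' j
    change |((⌊2 ^ kk sg (2 * s + 1) (P - a) w * sg w.2 j⌋ -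
      ⌊2 ^ kk sg (2 * s + 1) (P - a) w' * sg w'.2 j⌋ : ℤ) : ℝ)| ≤ 4 * s + 3
    rw [← e3.1] at g2 ⊢
    rw [← f1] at g2
    obtain ⟨k, hk⟩ : ∃ k, k = kk sg (2 * s + 1) (P - a) w := ⟨_, rfl⟩
    rw [← hk] at g1 g2 ⊢
    refine (Plk.floor_sub_lt (c := 4 * s + 2) ?_).trans (by linarith)
    have p1 : (0 : ℝ) < 2 ^ k := by positivity
    have t1 : 2 ^ k * sg w.2 j - 2 ^ k * sg w'.2 j =
        (sg w.1 j - sg w'.2 j) * 2 ^ k - (sg w.1 j - sg w.2 j) * 2 ^ k := by ring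
    have t2 := abs_sub ((sg w.1 j - sg w'.2 j) * 2 ^ k) ((sg w.1 j - sg w.2 j) * 2 ^ k)
    rw [abs_mul, abs_mul, abs_of_pos p1] at t2
    rw [t1]
    linarith
  have c4 : CH (qq p x W P') (fun w => (v2 x sg n0 i0 a P (2 * s + 1) w).2.2)
      (fun w => ((z w.1, BB x sg i0 a P (2 * s + 1) w),
        (kk sg (2 * s + 1) (P - a) w, W w.1))) ≤
      m * Real.log (2 * (2 * (2 * C + 3 * s + 2) + 1) + 1) := by
    refine Plk.CH_vec_const hq _ _ ?_
    intro w w' hw hw' e j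
    have e1 := Prod.ext_iff.mp e
    have e2 := Prod.ext_iff.mp e1.1
    have e3 := Prod.ext_iff.mp e1.2
    simp only at e1 e2 e3
    obtain ⟨f1, f2⟩ := hsn w w' hw hw' e2.1 e3.2
    have g1 := D.sheets hw j
    have g2 := D.sheets hw' j
    change |((⌊2 ^ P * (n0 w.2 j + sg w.2 j *
      ((BB x sg i0 a P (2 * s + 1) w : ℝ) / 2 ^ (P - kk sg (2 * s + 1) (P - a) w)))⌋ -
      ⌊2 ^ P * (n0 w'.2 j + sg w'.2 j *
      ((BB x sg i0 a P (2 * s + 1) w' : ℝ) / 2 ^ (P - kk sg (2 * s + 1) (P - a) w')))⌋ : ℤ) : ℝ)| ≤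
      2 * (2 * C + 3 * s + 2) + 1
    rw [← e3.1, ← e2.2] at g2 ⊢
    rw [← f1, ← f2] at g2
    refine (Plk.floor_sub_lt (c := 2 * (2 * C + 3 * s + 2)) ?_).trans le_rfl
    rw [abs_le] at g1 g2 ⊢
    constructor
    · linarith [g1.1, g2.2]
    · linarith [g1.2, g2.1]
  linarith

/-- The point to the precision `P`, from the sheet. -/
theorem Dat.four (D : Dat p x W z sg n0 i0 a P P' C s) :
    CH (qq p x W P') (fun w => fl P (x w.1)) (fun w => (kk sg (2 * s + 1) (P - a) w, W w.1)) ≤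
      CH (qq p x W P') (v2 x sg n0 i0 a P (2 * s + 1))
        (fun w => (kk sg (2 * s + 1) (P - a) w, W w.1)) +
      Ex (qq p x W P') (fun w => (kk sg (2 * s + 1) (P - a) w : ℝ)) * Real.log 2 +
      (Real.log (2 * 2 + 1) + m * Real.log (2 * (2 * C + s + 3) + 1)) := by
  have hq := D.q_law
  have h0 := hq.nonneg
  have C0 := D.C0
  have s0 := D.s0
  have PP := D.PP
  have aP := D.aP
  obtain ⟨V, hV⟩ : ∃ V, V = v2 x sg n0 i0 a P (2 * s + 1) := ⟨_, rfl⟩
  obtain ⟨Y, hY⟩ : ∃ Y : Ω × Ω → ℤ, Y = fun w => ⌊2 ^ P * x w.2 i0⌋ := ⟨_, rfl⟩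
  -- equality of the components of the sheet
  have hVc : ∀ w w', V w = V w' → BB x sg i0 a P (2 * s + 1) w = BB x sg i0 a P (2 * s + 1) w' ∧
      (∀ j, ⌊2 ^ kk sg (2 * s + 1) (P - a) w * sg w.2 j⌋ =
        ⌊2 ^ kk sg (2 * s + 1) (P - a) w' * sg w'.2 j⌋) ∧
      ∀ j, ⌊2 ^ P * (n0 w.2 j + sg w.2 j *
        ((BB x sg i0 a P (2 * s + 1) w : ℝ) / 2 ^ (P - kk sg (2 * s + 1) (P - a) w)))⌋ =
        ⌊2 ^ P * (n0 w'.2 j + sg w'.2 j *
        ((BB x sg i0 a P (2 * s + 1) w' : ℝ) / 2 ^ (P - kk sg (2 * s + 1) (P - a) w')))⌋ := by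
    intro w w' e
    rw [hV] at e
    have e1 := Prod.ext_iff.mp e
    have e2 := Prod.ext_iff.mp e1.2
    exact ⟨e1.1, fun j => congrFun e2.1 j, fun j => congrFun e2.2 j⟩
  have c1 := CH_le_add h0 (fun w : Ω × Ω => fl P (x w.1)) V
    (fun w => (kk sg (2 * s + 1) (P - a) w, W w.1))
  have c2 := CH_le_add h0 (fun w : Ω × Ω => fl P (x w.1)) Y
    (fun w => (V w, (kk sg (2 * s + 1) (P - a) w, W w.1)))
  have c3 := int_pow_bd hq Y (fun w => (V w, (kk sg (2 * s + 1) (P - a) w, W w.1)))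
    (c := 2) (by norm_num) (fun w => kk sg (2 * s + 1) (P - a) w) (by
      intro w w' hw hw' e
      have e1 := Prod.ext_iff.mp e
      have e2 := Prod.ext_iff.mp e1.2
      simp only at e1 e2
      have hk := kk_le sg (2 * s + 1) (P - a) w
      have f1 := (hVc w w' e1.1).1
      have b1 := D.BB_near2 hw
      have b2 := D.BB_near2 hw'
      rw [← e2.1, ← f1] at b2
      obtain ⟨k, hk'⟩ : ∃ k, k = kk sg (2 * s + 1) (P - a) w := ⟨_, rfl⟩
      rw [← hk'] at b1 b2 hk ⊢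
      have g1 : ⌊2 ^ (P - k) * x w.2 i0⌋ = ⌊2 ^ (P - k) * x w'.2 i0⌋ := by
        have h1 := D.BB_snd hw
        have h2 := D.BB_snd hw'
        rw [← e2.1] at h2
        rw [← hk'] at h1 h2
        rw [← h1, ← h2, f1]
      have g2 := dist_of_floor g1
      rw [hY]
      refine (Plk.floor_sub_lt (c := 2 ^ k) ?_).trans ?_
      · rw [← mul_sub, abs_mul, abs_of_pos (by positivity)]
        have e3 : (2 : ℝ) ^ P = 2 ^ k * 2 ^ (P - k) := by
          rw [← pow_add]; congr 1; omega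
        rw [le_div_iff₀ (by positivity)] at g2
        calc (2 : ℝ) ^ P * |x w.2 i0 - x w'.2 i0| = 2 ^ k * (|x w.2 i0 - x w'.2 i0| *
            2 ^ (P - k)) := by rw [e3]; ring
          _ ≤ 2 ^ k * 1 := mul_le_mul_of_nonneg_left g2 (by positivity)
          _ = 2 ^ k := mul_one _
      · have : (1 : ℝ) ≤ 2 ^ k := one_le_pow₀ (by norm_num)
        linarith)
  have c4 : CH (qq p x W P') (fun w : Ω × Ω => fl P (x w.1))
      (fun w => (Y w, (V w, (kk sg (2 * s + 1) (P - a) w, W w.1)))) ≤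
      m * Real.log (2 * (2 * C + s + 3) + 1) := by
    refine Plk.CH_vec_const hq _ _ ?_
    intro w w' hw hw' e j
    have e1 := Prod.ext_iff.mp e
    have e2 := Prod.ext_iff.mp e1.2
    have e3 := Prod.ext_iff.mp e2.2
    simp only at e1 e2 e3
    obtain ⟨f1, f2, f3⟩ := hVc w w' e2.1
    have hk := kk_le sg (2 * s + 1) (P - a) w
    have s1 := D.sup hw
    have s2 := D.sup hw'
    -- the points of the second sample
    have x1 : fl P (x w.1) = fl P (x w.2) := Pool.STK.B58.fl_fine PP s1.2.2.1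
    have x2 : fl P (x w'.1) = fl P (x w'.2) := Pool.STK.B58.fl_fine PP s2.2.2.1
    rw [x1, x2]
    have f2j := f2 j
    have f3j := f3 j
    have b1 := D.BB_near2 hw
    have b2 := D.BB_near2 hw'
    rw [← e3.1] at f2j f3j b2
    rw [← f1] at f3j b2
    obtain ⟨k, hk'⟩ : ∃ k, k = kk sg (2 * s + 1) (P - a) w := ⟨_, rfl⟩
    rw [← hk'] at f2j f3j b1 b2 hk
    obtain ⟨b, hb⟩ : ∃ b : ℝ, b = (BB x sg i0 a P (2 * s + 1) w : ℝ) / 2 ^ (P - k) := ⟨_, rfl⟩
    rw [← hb] at b1 b2 f3j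
    have g1 := dist_of_floor f2j
    have g2 := dist_of_floor f3j
    have hYe : ⌊2 ^ P * x w.2 i0⌋ = ⌊2 ^ P * x w'.2 i0⌋ := by
      have := e1.1
      rw [hY] at this
      exact this
    have g3 := dist_of_floor hYe
    have q1 := D.hs _ s1.2.1 j
    have q2 := D.hs _ s2.2.1 j
    have q3 := D.sgs _ s1.2.1 j
    have hP : (0 : ℝ) < 2 ^ P := by positivity
    obtain ⟨r, hr⟩ : ∃ r : ℝ, r = 1 / 2 ^ P := ⟨_, rfl⟩
    have hr0 : 0 ≤ r := by rw [hr]; positivity
    have hCr : C / 2 ^ P' ≤ C * r := by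
      rw [hr, mul_one_div]
      exact div_le_div_of_nonneg_left C0 hP (pow_le_pow_right₀ (by norm_num) PP)
    rw [← hr] at g2 g3
    change |((⌊2 ^ P * x w.2 j⌋ - ⌊2 ^ P * x w'.2 j⌋ : ℤ) : ℝ)| ≤ 2 * C + s + 3
    refine (Plk.floor_sub_lt (c := 2 * C + s + 2) ?_).trans (by linarith)
    rw [← mul_sub, abs_mul, abs_of_pos hP]
    have i1 : x w.2 j - x w'.2 j = (x w.2 j - n0 w.2 j - sg w.2 j * x w.2 i0) -
        (x w'.2 j - n0 w'.2 j - sg w'.2 j * x w'.2 i0) +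
        ((n0 w.2 j + sg w.2 j * b) - (n0 w'.2 j + sg w'.2 j * b)) +
        sg w.2 j * (x w.2 i0 - x w'.2 i0) - (sg w.2 j - sg w'.2 j) * (b - x w'.2 i0) := by ring
    have j1 : |sg w.2 j * (x w.2 i0 - x w'.2 i0)| ≤ s * r := by
      rw [abs_mul]
      exact mul_le_mul q3 g3 (abs_nonneg _) s0
    have j2 : |(sg w.2 j - sg w'.2 j) * (b - x w'.2 i0)| ≤ r := by
      rw [abs_mul]
      have e6 : r = 1 / 2 ^ k * (1 / 2 ^ (P - k)) := by
        rw [hr, one_div_mul_one_div, ← pow_add]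
        congr 2; omega
      rw [e6]
      exact mul_le_mul g1 b2 (abs_nonneg _) (by positivity)
    have t1 := abs_sub ((x w.2 j - n0 w.2 j - sg w.2 j * x w.2 i0) -
        (x w'.2 j - n0 w'.2 j - sg w'.2 j * x w'.2 i0) +
        ((n0 w.2 j + sg w.2 j * b) - (n0 w'.2 j + sg w'.2 j * b)) +
        sg w.2 j * (x w.2 i0 - x w'.2 i0)) ((sg w.2 j - sg w'.2 j) * (b - x w'.2 i0))
    have t2 := abs_add_le ((x w.2 j - n0 w.2 j - sg w.2 j * x w.2 i0) -
        (x w'.2 j - n0 w'.2 j - sg w'.2 j * x w'.2 i0) +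
        ((n0 w.2 j + sg w.2 j * b) - (n0 w'.2 j + sg w'.2 j * b)))
        (sg w.2 j * (x w.2 i0 - x w'.2 i0))
    have t3 := abs_add_le ((x w.2 j - n0 w.2 j - sg w.2 j * x w.2 i0) -
        (x w'.2 j - n0 w'.2 j - sg w'.2 j * x w'.2 i0))
        ((n0 w.2 j + sg w.2 j * b) - (n0 w'.2 j + sg w'.2 j * b))
    have t4 := abs_sub (x w.2 j - n0 w.2 j - sg w.2 j * x w.2 i0)
        (x w'.2 j - n0 w'.2 j - sg w'.2 j * x w'.2 i0)
    rw [i1]
    have t5 : |(x w.2 j - n0 w.2 j - sg w.2 j * x w.2 i0) -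
        (x w'.2 j - n0 w'.2 j - sg w'.2 j * x w'.2 i0) +
        ((n0 w.2 j + sg w.2 j * b) - (n0 w'.2 j + sg w'.2 j * b)) +
        sg w.2 j * (x w.2 i0 - x w'.2 i0) - (sg w.2 j - sg w'.2 j) * (b - x w'.2 i0)| ≤
        (2 * C + s + 2) * r := by linarith
    have e7 : 2 ^ P * r = 1 := by rw [hr]; field_simp
    calc (2 : ℝ) ^ P * |(x w.2 j - n0 w.2 j - sg w.2 j * x w.2 i0) -
        (x w'.2 j - n0 w'.2 j - sg w'.2 j * x w'.2 i0) +
        ((n0 w.2 j + sg w.2 j * b) - (n0 w'.2 j + sg w'.2 j * b)) +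
        sg w.2 j * (x w.2 i0 - x w'.2 i0) - (sg w.2 j - sg w'.2 j) * (b - x w'.2 i0)| ≤
        2 ^ P * ((2 * C + s + 2) * r) := mul_le_mul_of_nonneg_left t5 hP.le
      _ = (2 * C + s + 2) * (2 ^ P * r) := by ring
      _ = 2 * C + s + 2 := by rw [e7, mul_one]
  rw [hV] at c1 c2 c3 c4
  linarith

/-- The exponent of the range of the chart coordinate, given both labels. -/
noncomputable def ee (sg : Ω → Fin m → ℝ) (M : ℝ) (a P P' : ℕ) (w : Ω × Ω) : ℕ :=
  if kk sg M (P - a) w = P - a then P' - a else kk sg M (P - a) w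

/-- The point given both labels. -/
theorem Dat.five (D : Dat p x W z sg n0 i0 a P P' C s) :
    CH (qq p x W P') (fun w => fl P' (x w.1))
      (fun w => (z w.2, (z w.1, (kk sg (2 * s + 1) (P - a) w, W w.1)))) ≤
      Ex (qq p x W P') (fun w => (ee sg (2 * s + 1) a P P' w : ℝ)) * Real.log 2 +
      (Real.log (2 * (9 * C + 4 * s + 5) + 1) + m * Real.log (2 * (2 * C + s + 1) + 1)) := by
  have hq := D.q_law
  have h0 := hq.nonneg
  have C0 := D.C0
  have s0 := D.s0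
  have PP := D.PP
  have aP := D.aP
  have hsn : ∀ w w', 0 < qq p x W P' w → 0 < qq p x W P' w' → z w.1 = z w'.1 → W w.1 = W w'.1 →
      sg w.1 = sg w'.1 ∧ n0 w.1 = n0 w'.1 := by
    intro w w' hw hw' e1 e2
    exact Prod.ext_iff.mp (D.det _ _ (D.sup hw).1 (D.sup hw').1 (Prod.ext e1 e2))
  have hsn2 : ∀ w w', 0 < qq p x W P' w → 0 < qq p x W P' w' → z w.2 = z w'.2 → W w.1 = W w'.1 →
      sg w.2 = sg w'.2 ∧ n0 w.2 = n0 w'.2 := by
    intro w w' hw hw' e1 e2
    refine Prod.ext_iff.mp (D.det _ _ (D.sup hw).2.1 (D.sup hw').2.1 (Prod.ext e1 ?_))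
    change W w.2 = W w'.2
    rw [← (D.sup hw).2.2.2, ← (D.sup hw').2.2.2, e2]
  obtain ⟨Y, hY⟩ : ∃ Y : Ω × Ω → ℤ, Y = fun w => ⌊2 ^ P' * x w.1 i0⌋ := ⟨_, rfl⟩
  have c1 := CH_le_add h0 (fun w : Ω × Ω => fl P' (x w.1)) Y
    (fun w => (z w.2, (z w.1, (kk sg (2 * s + 1) (P - a) w, W w.1))))
  have hP' : (0 : ℝ) < 2 ^ P' := by positivity
  obtain ⟨r, hr⟩ : ∃ r : ℝ, r = 1 / 2 ^ P' := ⟨_, rfl⟩
  have hr0 : 0 ≤ r := by rw [hr]; positivity
  have hrP : 2 ^ P' * r = 1 := by rw [hr]; field_simp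
  have eC : C / 2 ^ P' = C * r := by rw [hr]; ring
  have c2 := int_pow_bd hq Y (fun w => (z w.2, (z w.1, (kk sg (2 * s + 1) (P - a) w, W w.1))))
    (c := 9 * C + 4 * s + 5) (by positivity) (ee sg (2 * s + 1) a P P') (by
      intro w w' hw hw' e
      have e1 := Prod.ext_iff.mp e
      have e2 := Prod.ext_iff.mp e1.2
      have e3 := Prod.ext_iff.mp e2.2
      simp only at e1 e2 e3
      have hk := kk_le sg (2 * s + 1) (P - a) w
      have s1 := D.sup hw
      have s2 := D.sup hw'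
      rw [hY]
      change |((⌊2 ^ P' * x w.1 i0⌋ - ⌊2 ^ P' * x w'.1 i0⌋ : ℤ) : ℝ)| ≤ _
      by_cases hc : kk sg (2 * s + 1) (P - a) w = P - a
      · -- agreeing slopes: the range of the chart coordinate in the label
        have ee1 : ee sg (2 * s + 1) a P P' w = P' - a := by
          unfold ee; rw [if_pos hc]
        rw [ee1]
        have y1 := D.hy _ _ s1.1 s2.1 e2.1 e3.2
        refine (Plk.floor_sub_lt (c := C * 2 ^ (P' - a)) ?_).trans ?_
        · rw [← mul_sub, abs_mul, abs_of_pos hP']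
          have e4 : (2 : ℝ) ^ P' = 2 ^ a * 2 ^ (P' - a) := by
            rw [← pow_add]; congr 1; omega
          rw [le_div_iff₀ (by positivity)] at y1
          calc (2 : ℝ) ^ P' * |x w.1 i0 - x w'.1 i0| =
              (|x w.1 i0 - x w'.1 i0| * 2 ^ a) * 2 ^ (P' - a) := by rw [e4]; ring
            _ ≤ C * 2 ^ (P' - a) := mul_le_mul_of_nonneg_right y1 (by positivity)
        · have : (1 : ℝ) ≤ 2 ^ (P' - a) := one_le_pow₀ (by norm_num)
          nlinarith
      · -- different slopes: the intersection of the two sheets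
        have ee1 : ee sg (2 * s + 1) a P P' w = kk sg (2 * s + 1) (P - a) w := by
          unfold ee; rw [if_neg hc]
        rw [ee1]
        obtain ⟨j, hj⟩ := kk_lt (sg := sg) (M := 2 * s + 1) (w := w) (n := P - a)
          (lt_of_le_of_ne hk hc)
        obtain ⟨k, hk'⟩ : ∃ k, k = kk sg (2 * s + 1) (P - a) w := ⟨_, rfl⟩
        rw [← hk'] at hj ⊢
        obtain ⟨f1, f2⟩ := hsn w w' hw hw' e2.1 e3.2
        obtain ⟨g1, g2⟩ := hsn2 w w' hw hw' e1.1 e3.2
        have a1 := D.hs _ s1.1 j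
        have a2 := D.hs _ s1.2.1 j
        have a3 := D.hs _ s2.1 j
        have a4 := D.hs _ s2.2.1 j
        have b1 := D.near hw j
        have b2 := D.near hw i0
        have b3 := D.near hw' j
        have b4 := D.near hw' i0
        have d1 := D.sgs _ s1.2.1 j
        rw [← f1, ← f2, eC] at a3
        rw [← g1, ← g2, eC] at a4
        rw [eC] at a1 a2
        rw [← hr] at b1 b2 b3 b4
        obtain ⟨δ, hδ⟩ : ∃ δ : ℝ, δ = sg w.1 j - sg w.2 j := ⟨_, rfl⟩
        rw [← hδ] at hj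
        have l1 : |δ * x w.1 i0 + (n0 w.1 j - n0 w.2 j)| ≤ (2 * C + 1 + s) * r := by
          have i1 : δ * x w.1 i0 + (n0 w.1 j - n0 w.2 j) =
              (x w.2 j - n0 w.2 j - sg w.2 j * x w.2 i0) -
              (x w.1 j - n0 w.1 j - sg w.1 j * x w.1 i0) + (x w.1 j - x w.2 j) -
              sg w.2 j * (x w.1 i0 - x w.2 i0) := by rw [hδ]; ring
          have j1 : |sg w.2 j * (x w.1 i0 - x w.2 i0)| ≤ s * r := by
            rw [abs_mul]
            exact mul_le_mul d1 b2 (abs_nonneg _) s0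
          have t1 := abs_sub ((x w.2 j - n0 w.2 j - sg w.2 j * x w.2 i0) -
              (x w.1 j - n0 w.1 j - sg w.1 j * x w.1 i0) + (x w.1 j - x w.2 j))
              (sg w.2 j * (x w.1 i0 - x w.2 i0))
          have t2 := abs_add_le ((x w.2 j - n0 w.2 j - sg w.2 j * x w.2 i0) -
              (x w.1 j - n0 w.1 j - sg w.1 j * x w.1 i0)) (x w.1 j - x w.2 j)
          have t3 := abs_sub (x w.2 j - n0 w.2 j - sg w.2 j * x w.2 i0)
              (x w.1 j - n0 w.1 j - sg w.1 j * x w.1 i0)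
          rw [i1]
          linarith
        have l2 : |δ * x w'.1 i0 + (n0 w.1 j - n0 w.2 j)| ≤ (2 * C + 1 + s) * r := by
          have i1 : δ * x w'.1 i0 + (n0 w.1 j - n0 w.2 j) =
              (x w'.2 j - n0 w.2 j - sg w.2 j * x w'.2 i0) -
              (x w'.1 j - n0 w.1 j - sg w.1 j * x w'.1 i0) + (x w'.1 j - x w'.2 j) -
              sg w.2 j * (x w'.1 i0 - x w'.2 i0) := by rw [hδ]; ring
          have j1 : |sg w.2 j * (x w'.1 i0 - x w'.2 i0)| ≤ s * r := by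
            rw [abs_mul]
            exact mul_le_mul d1 b4 (abs_nonneg _) s0
          have t1 := abs_sub ((x w'.2 j - n0 w.2 j - sg w.2 j * x w'.2 i0) -
              (x w'.1 j - n0 w.1 j - sg w.1 j * x w'.1 i0) + (x w'.1 j - x w'.2 j))
              (sg w.2 j * (x w'.1 i0 - x w'.2 i0))
          have t2 := abs_add_le ((x w'.2 j - n0 w.2 j - sg w.2 j * x w'.2 i0) -
              (x w'.1 j - n0 w.1 j - sg w.1 j * x w'.1 i0)) (x w'.1 j - x w'.2 j)
          have t3 := abs_sub (x w'.2 j - n0 w.2 j - sg w.2 j * x w'.2 i0)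
              (x w'.1 j - n0 w.1 j - sg w.1 j * x w'.1 i0)
          rw [i1]
          linarith
        have l3 : |δ| * |x w.1 i0 - x w'.1 i0| ≤ 2 * (2 * C + 1 + s) * r := by
          have t1 := abs_sub (δ * x w.1 i0 + (n0 w.1 j - n0 w.2 j))
            (δ * x w'.1 i0 + (n0 w.1 j - n0 w.2 j))
          have i1 : (δ * x w.1 i0 + (n0 w.1 j - n0 w.2 j)) -
            (δ * x w'.1 i0 + (n0 w.1 j - n0 w.2 j)) = δ * (x w.1 i0 - x w'.1 i0) := by ring
          rw [i1, abs_mul] at t1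
          linarith
        have p1 : (0 : ℝ) < 2 ^ k := by positivity
        have hδ0 : 1 ≤ |δ| * 2 ^ (k + 1) := by linarith
        refine (Plk.floor_sub_lt (c := 4 * (2 * C + 1 + s) * 2 ^ k) ?_).trans ?_
        · rw [← mul_sub, abs_mul, abs_of_pos hP']
          have n1 : 0 ≤ 2 ^ P' * |x w.1 i0 - x w'.1 i0| := by positivity
          calc (2 : ℝ) ^ P' * |x w.1 i0 - x w'.1 i0| =
              1 * (2 ^ P' * |x w.1 i0 - x w'.1 i0|) := (one_mul _).symm
            _ ≤ (|δ| * 2 ^ (k + 1)) * (2 ^ P' * |x w.1 i0 - x w'.1 i0|) :=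
                mul_le_mul_of_nonneg_right hδ0 n1
            _ = (2 ^ (k + 1) * 2 ^ P') * (|δ| * |x w.1 i0 - x w'.1 i0|) := by ring
            _ ≤ (2 ^ (k + 1) * 2 ^ P') * (2 * (2 * C + 1 + s) * r) :=
                mul_le_mul_of_nonneg_left l3 (by positivity)
            _ = 4 * (2 * C + 1 + s) * 2 ^ k * (2 ^ P' * r) := by rw [pow_succ]; ring
            _ = 4 * (2 * C + 1 + s) * 2 ^ k := by rw [hrP, mul_one]
        · have : (1 : ℝ) ≤ 2 ^ k := one_le_pow₀ (by norm_num)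
          nlinarith)
  have c3 : CH (qq p x W P') (fun w : Ω × Ω => fl P' (x w.1))
      (fun w => (Y w, (z w.2, (z w.1, (kk sg (2 * s + 1) (P - a) w, W w.1))))) ≤
      m * Real.log (2 * (2 * C + s + 1) + 1) := by
    refine Plk.CH_vec_const hq _ _ ?_
    intro w w' hw hw' e j
    have e1 := Prod.ext_iff.mp e
    have e2 := Prod.ext_iff.mp e1.2
    have e3 := Prod.ext_iff.mp e2.2
    have e4 := Prod.ext_iff.mp e3.2
    simp only at e1 e2 e3 e4
    have s1 := D.sup hw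
    have s2 := D.sup hw'
    obtain ⟨f1, f2⟩ := hsn w w' hw hw' e3.1 e4.2
    have hYe : ⌊2 ^ P' * x w.1 i0⌋ = ⌊2 ^ P' * x w'.1 i0⌋ := by
      have := e1.1
      rw [hY] at this
      exact this
    have g3 := dist_of_floor hYe
    have a1 := D.hs _ s1.1 j
    have a3 := D.hs _ s2.1 j
    have d1 := D.sgs _ s1.1 j
    rw [← f1, ← f2, eC] at a3
    rw [eC] at a1
    rw [← hr] at g3
    change |((⌊2 ^ P' * x w.1 j⌋ - ⌊2 ^ P' * x w'.1 j⌋ : ℤ) : ℝ)| ≤ 2 * C + s + 1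
    refine (Plk.floor_sub_lt (c := 2 * C + s) ?_).trans (by linarith)
    rw [← mul_sub, abs_mul, abs_of_pos hP']
    have i1 : x w.1 j - x w'.1 j = (x w.1 j - n0 w.1 j - sg w.1 j * x w.1 i0) -
        (x w'.1 j - n0 w.1 j - sg w.1 j * x w'.1 i0) + sg w.1 j * (x w.1 i0 - x w'.1 i0) := by
      ring
    have j1 : |sg w.1 j * (x w.1 i0 - x w'.1 i0)| ≤ s * r := by
      rw [abs_mul]
      exact mul_le_mul d1 g3 (abs_nonneg _) s0
    have t1 := abs_add_le ((x w.1 j - n0 w.1 j - sg w.1 j * x w.1 i0) -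
        (x w'.1 j - n0 w.1 j - sg w.1 j * x w'.1 i0)) (sg w.1 j * (x w.1 i0 - x w'.1 i0))
    have t2 := abs_sub (x w.1 j - n0 w.1 j - sg w.1 j * x w.1 i0)
        (x w'.1 j - n0 w.1 j - sg w.1 j * x w'.1 i0)
    rw [i1]
    calc (2 : ℝ) ^ P' * |(x w.1 j - n0 w.1 j - sg w.1 j * x w.1 i0) -
        (x w'.1 j - n0 w.1 j - sg w.1 j * x w'.1 i0) + sg w.1 j * (x w.1 i0 - x w'.1 i0)| ≤
        2 ^ P' * ((2 * C + s) * r) := mul_le_mul_of_nonneg_left (by linarith) hP'.le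
      _ = (2 * C + s) * (2 ^ P' * r) := by ring
      _ = 2 * C + s := by rw [hrP, mul_one]
  linarith

/-- The constant. -/
noncomputable def puC (m : ℕ) (C s : ℝ) : ℝ :=
  2 * Real.log (2 * (C + 1) + 1) +
    (m * Real.log (2 * (4 * s + 3) + 1) + m * Real.log (2 * (2 * (2 * C + 3 * s + 2) + 1) + 1)) +
    (Real.log (2 * 2 + 1) + m * Real.log (2 * (2 * C + s + 3) + 1)) +
    (Real.log (2 * (9 * C + 4 * s + 5) + 1) + m * Real.log (2 * (2 * C + s + 1) + 1))

open Classical in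
/-- **Two labels at one point.** If the rows `(P, P']` of the point are not full, then with positive
probability the slopes of two independent labels agree up to `2 ^ (-(P - a))`. -/
theorem pu_thm (D : Dat p x W z sg n0 i0 a P P' C s) {d : ℝ}
    (hd : ((P' : ℝ) - a) * Real.log 2 - d ≤
      CH p (fun ω => ⌊2 ^ P' * x ω i0⌋) (fun ω => (z ω, W ω))) :
    2 * (((P' : ℝ) - P) * Real.log 2) ≤
      CH p (fun ω => fl P' (x ω)) (fun ω => (fl P (x ω), W ω)) +
      ((P' : ℝ) - P) * Real.log 2 * Ex (qq p x W P') (fun w =>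
        if ∀ j, |sg w.1 j - sg w.2 j| * 2 ^ (P - a) ≤ 2 * s + 1 then 1 else 0) +
      2 * d + 2 * Real.log (((P - a : ℕ) : ℝ) + 1) + puC m C s := by
  have hq := D.q_law
  have h0 := hq.nonneg
  have hp0 := D.law.nonneg
  have PP := D.PP
  have aP := D.aP
  have hL : 0 ≤ Real.log 2 := Real.log_nonneg (by norm_num)
  obtain ⟨K, hK⟩ : ∃ K, K = kk sg (2 * s + 1) (P - a) := ⟨_, rfl⟩
  obtain ⟨B, hB⟩ : ∃ B, B = BB x sg i0 a P (2 * s + 1) := ⟨_, rfl⟩
  obtain ⟨V, hV⟩ : ∃ V, V = v2 x sg n0 i0 a P (2 * s + 1) := ⟨_, rfl⟩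
  obtain ⟨q, hqq⟩ : ∃ q, q = qq p x W P' := ⟨_, rfl⟩
  have b1 := D.one
  have b2 := D.two
  have b3 := D.three
  have b4 := D.four
  have b5 := D.five
  -- the entropy of the two labels given the point
  have e1 : CH q (fun w : Ω × Ω => (z w.1, z w.2)) (fun w => (fl P' (x w.1), W w.1)) =
      2 * CH p z (fun ω => (fl P' (x ω), W ω)) := by
    have c1 := CH_chain h0 (fun w : Ω × Ω => z w.1) (fun w : Ω × Ω => z w.2)
      (fun w => (fl P' (x w.1), W w.1))
    have c2 : CH (qq p x W P') (fun w : Ω × Ω => z w.2) (fun w => (fl P' (x w.1), W w.1)) =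
        CH p z (fun ω => (fl P' (x ω), W ω)) := by
      rw [← D.CH2 z (fun ω => (fl P' (x ω), W ω))]
      refine CH_congr h0 (fun _ _ _ _ e => (Prod.ext_iff.mp e).1)
        (fun _ _ _ _ e => (Prod.ext_iff.mp e).1) ?_ ?_
      · intro w w' hw hw' e
        have g1 := Prod.ext_iff.mp e
        simp only at g1
        have s1 := D.sup hw
        have s2 := D.sup hw'
        refine Prod.ext ?_ ?_
        · change fl P' (x w.2) = fl P' (x w'.2)
          rw [← s1.2.2.1, ← s2.2.2.1, g1.1]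
        · change W w.2 = W w'.2
          rw [← s1.2.2.2, ← s2.2.2.2, g1.2]
      · intro w w' hw hw' e
        have g1 := Prod.ext_iff.mp e
        simp only at g1
        have s1 := D.sup hw
        have s2 := D.sup hw'
        refine Prod.ext ?_ ?_
        · change fl P' (x w.1) = fl P' (x w'.1)
          rw [s1.2.2.1, s2.2.2.1, g1.1]
        · change W w.1 = W w'.1
          rw [s1.2.2.2, s2.2.2.2, g1.2]
    have c3 : CH (qq p x W P') (fun w : Ω × Ω => z w.1)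
        (fun w => (z w.2, (fl P' (x w.1), W w.1))) = CH p z (fun ω => (fl P' (x ω), W ω)) :=
      (cpy_thm Ω _ p D.law (fun ω => (fl P' (x ω), W ω))).2.2.2.2.2 U U z z
    rw [hqq, c1, c2, c3]
    ring
  have e2 : CH q (fun w : Ω × Ω => ((z w.1, z w.2), fl P' (x w.1))) (fun w => W w.1) =
      CH p (fun ω => fl P' (x ω)) W + 2 * CH p z (fun ω => (fl P' (x ω), W ω)) := by
    have c1 := CH_chain h0 (fun w : Ω × Ω => (z w.1, z w.2)) (fun w : Ω × Ω => fl P' (x w.1))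
      (fun w => W w.1)
    have c2 := D.CH1 (fun ω => fl P' (x ω)) W
    rw [← hqq] at c1 c2
    rw [c1, e1]
    linarith
  -- upper bound
  have hKlog : CH q K (fun w => W w.1) ≤ Real.log (((P - a : ℕ) : ℝ) + 1) := by
    rw [hqq]
    refine (CH_le_card h0 hq.sum_one K _ (fun _ => Finset.range (P - a + 1)) ?_).trans ?_
    · intro w _
      rw [Finset.mem_range, hK]
      have := kk_le sg (2 * s + 1) (P - a) w
      omega
    · rw [Finset.card_range]
      push_cast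
      rw [Ex_const hq.sum_one]
  rw [← hqq] at b1 b2 b3 b4 b5 h0
  rw [← hB] at b1 b2 b3
  rw [← hV] at b3 b4
  rw [hqq] at h0
  have u1 : CH q (fun w : Ω × Ω => ((z w.1, z w.2), fl P' (x w.1))) (fun w => W w.1) ≤
      CH q K (fun w => W w.1) + (CH q (fun w => (z w.1, B w)) (fun w => (K w, W w.1)) +
        CH q (fun w => z w.2) (fun w => ((z w.1, B w), (K w, W w.1))) +
        CH q (fun w => fl P' (x w.1)) (fun w => (z w.2, (z w.1, (K w, W w.1))))) := by
    rw [hqq]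
    have c1 := CH_le_add h0 (fun w : Ω × Ω => ((z w.1, z w.2), fl P' (x w.1))) K
      (fun w => W w.1)
    have c2 : CH (qq p x W P') (fun w : Ω × Ω => ((z w.1, z w.2), fl P' (x w.1)))
        (fun w => (K w, W w.1)) ≤ CH (qq p x W P') (fun w => (fl P' (x w.1), (z w.2, (z w.1, B w))))
          (fun w => (K w, W w.1)) := by
      refine CH_mono_left h0 fun w w' _ _ e => ?_
      have g1 := Prod.ext_iff.mp (Prod.ext_iff.mp e).1
      have g2 := Prod.ext_iff.mp g1.2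
      have g3 := Prod.ext_iff.mp g2.2
      exact Prod.ext (Prod.ext g3.1 g2.1) g1.1
    have c3 := CH_chain h0 (fun w : Ω × Ω => fl P' (x w.1)) (fun w => (z w.2, (z w.1, B w)))
      (fun w => (K w, W w.1))
    have c4 := CH_chain h0 (fun w : Ω × Ω => z w.2) (fun w => (z w.1, B w))
      (fun w => (K w, W w.1))
    have c5 := CH_mono_cond h0 (X := fun w : Ω × Ω => fl P' (x w.1))
      (W' := fun w => ((z w.2, (z w.1, B w)), (K w, W w.1)))
      (W := fun w => (z w.2, (z w.1, (K w, W w.1)))) (fun w w' _ _ e => by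
        have g1 := Prod.ext_iff.mp e
        have g2 := Prod.ext_iff.mp g1.1
        have g3 := Prod.ext_iff.mp g2.2
        exact Prod.ext g2.1 (Prod.ext g3.1 g1.2))
    linarith
  -- the second label
  have u2 : CH q (fun w : Ω × Ω => z w.2) (fun w => ((z w.1, B w), (K w, W w.1))) ≤
      CH q V (fun w => ((z w.1, B w), (K w, W w.1))) +
      (CH q (fun w => (z w.2, B w)) (fun w => (K w, W w.1)) -
        CH q V (fun w => (K w, W w.1))) := by
    rw [hqq]
    have c1 := CH_le_add h0 (fun w : Ω × Ω => z w.2) V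
      (fun w => ((z w.1, B w), (K w, W w.1)))
    have c2 := CH_mono_cond h0 (X := fun w : Ω × Ω => z w.2)
      (W' := fun w => (V w, ((z w.1, B w), (K w, W w.1)))) (W := fun w => (V w, (K w, W w.1)))
      (fun w w' _ _ e => by
        have g1 := Prod.ext_iff.mp e
        exact Prod.ext g1.1 (Prod.ext_iff.mp g1.2).2)
    have c3 := CH_chain h0 (fun w : Ω × Ω => z w.2) V (fun w => (K w, W w.1))
    have c4 : CH (qq p x W P') (fun w : Ω × Ω => (z w.2, V w)) (fun w => (K w, W w.1)) ≤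
        CH (qq p x W P') (fun w : Ω × Ω => (z w.2, B w)) (fun w => (K w, W w.1)) := by
      refine CH_mono_left h0 fun w w' hw hw' e => ?_
      have g1 := Prod.ext_iff.mp e
      have g2 := Prod.ext_iff.mp g1.1
      have g3 := Prod.ext_iff.mp g1.2
      simp only at g1 g2 g3
      have s1 := D.sup hw
      have s2 := D.sup hw'
      have g4 : W w.2 = W w'.2 := by rw [← s1.2.2.2, ← s2.2.2.2, g3.2]
      have g5 := Prod.ext_iff.mp (D.det _ _ s1.2.1 s2.2.1 (Prod.ext g2.1 g4))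
      simp only at g5
      refine Prod.ext g2.1 ?_
      rw [hV]
      unfold v2
      rw [← hK, ← hB, g2.2, g3.1, g5.1, g5.2]
    linarith
  -- the coarse point
  have u3 : CH p (fun ω => fl P (x ω)) W - Real.log (((P - a : ℕ) : ℝ) + 1) ≤
      CH q (fun w => fl P (x w.1)) (fun w => (K w, W w.1)) := by
    have c1 := D.CH1 (fun ω => fl P (x ω)) W
    rw [← hqq] at c1
    have c2 : CH q (fun w : Ω × Ω => fl P (x w.1)) (fun w => W w.1) ≤
        CH q K (fun w => W w.1) + CH q (fun w => fl P (x w.1)) (fun w => (K w, W w.1)) := by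
      rw [hqq]
      exact CH_le_add h0 _ _ _
    linarith
  -- the entropy of the label
  have u4 : CH p z W ≤ CH p (fun ω => fl P' (x ω)) W + CH p z (fun ω => (fl P' (x ω), W ω)) -
      (((P' : ℝ) - a) * Real.log 2 - d) := by
    have c1 := CH_chain hp0 (fun ω => fl P' (x ω)) z W
    have c2 := CH_chain hp0 z (fun ω => fl P' (x ω)) W
    have c3 : CH p (fun ω => (fl P' (x ω), z ω)) W = CH p (fun ω => (z ω, fl P' (x ω))) W := by
      refine CH_congr hp0 ?_ ?_ (fun _ _ _ _ e => e) (fun _ _ _ _ e => e)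
      · intro w w' _ _ e
        have e1 := Prod.ext_iff.mp (Prod.ext_iff.mp e).1
        exact Prod.ext e1.2 e1.1
      · intro w w' _ _ e
        have e1 := Prod.ext_iff.mp (Prod.ext_iff.mp e).1
        exact Prod.ext e1.2 e1.1
    have c4 : CH p (fun ω => ⌊2 ^ P' * x ω i0⌋) (fun ω => (z ω, W ω)) ≤
        CH p (fun ω => fl P' (x ω)) (fun ω => (z ω, W ω)) :=
      CH_mono_left hp0 fun w w' _ _ e => congrFun (Prod.ext_iff.mp e).1 i0
    linarith
  -- the refinement of the point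
  have u5 : CH p (fun ω => fl P' (x ω)) W = CH p (fun ω => fl P (x ω)) W +
      CH p (fun ω => fl P' (x ω)) (fun ω => (fl P (x ω), W ω)) := by
    have c1 := CH_chain hp0 (fun ω => fl P' (x ω)) (fun ω => fl P (x ω)) W
    rw [← c1]
    refine CH_congr hp0 ?_ ?_ (fun _ _ _ _ e => e) (fun _ _ _ _ e => e)
    · intro w w' _ _ e
      have g1 : fl P' (x w) = fl P' (x w') := (Prod.ext_iff.mp e).1
      exact Prod.ext g1 (Pool.STK.B58.fl_fine PP g1)
    · intro w w' _ _ e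
      exact (Prod.ext_iff.mp (Prod.ext_iff.mp e).1).1
  -- the exponents
  have u6 : 2 * Ex q (fun w => ((P - K w - a : ℕ) : ℝ)) + Ex q (fun w => (K w : ℝ)) +
      Ex q (fun w => (ee sg (2 * s + 1) a P P' w : ℝ)) ≤ 2 * ((P : ℝ) - a) +
      ((P' : ℝ) - P) * Ex q (fun w =>
        if ∀ j, |sg w.1 j - sg w.2 j| * 2 ^ (P - a) ≤ 2 * s + 1 then 1 else 0) := by
    have hsum : Ex q (fun _ => (2 * ((P : ℝ) - a))) = 2 * ((P : ℝ) - a) := by
      rw [hqq]; exact Ex_const hq.sum_one _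
    rw [← hsum, ← Ex_smul, ← Ex_smul, ← Ex_add, ← Ex_add, ← Ex_add]
    rw [hqq]
    refine Ex_mono h0 fun w hw => ?_
    have hk := kk_le sg (2 * s + 1) (P - a) w
    have k2 := D.kk_spec hw
    rw [← hK] at hk k2
    have e3 : ((P - K w - a : ℕ) : ℝ) = (P : ℝ) - K w - a := by
      rw [Nat.cast_sub (by omega), Nat.cast_sub (by omega)]
    rw [e3]
    have hPP : (0 : ℝ) ≤ (P' : ℝ) - P := by
      have : (P : ℝ) ≤ P' := by exact_mod_cast PP
      linarith
    by_cases hc : K w = P - a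
    · have ee1 : ee sg (2 * s + 1) a P P' w = P' - a := by
        unfold ee; rw [← hK, if_pos hc]
      have k3 : ∀ j, |sg w.1 j - sg w.2 j| * 2 ^ (P - a) ≤ 2 * s + 1 := by
        intro j
        have := k2 j
        rwa [hc] at this
      rw [ee1, if_pos k3, hc, Nat.cast_sub aP, Nat.cast_sub (by omega : a ≤ P')]
      linarith
    · have ee1 : ee sg (2 * s + 1) a P P' w = K w := by
        unfold ee; rw [← hK, if_neg hc]
      rw [ee1]
      have h1 : (0 : ℝ) ≤ ((P' : ℝ) - P) *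
          (if ∀ j, |sg w.1 j - sg w.2 j| * 2 ^ (P - a) ≤ 2 * s + 1 then 1 else 0) := by
        refine mul_nonneg hPP ?_
        split_ifs
        · exact zero_le_one
        · exact le_rfl
      linarith
  have u7 := mul_le_mul_of_nonneg_right u6 hL
  rw [← hK] at b1 b2 b3 b4 b5
  unfold puC
  rw [hqq] at u1 u2 u3 u7 e2 b1 b2 b3 b4 b5 hKlog
  have u8 : ((P' : ℝ) - P) * Real.log 2 * Ex (qq p x W P') (fun w =>
        if ∀ j, |sg w.1 j - sg w.2 j| * 2 ^ (P - a) ≤ 2 * s + 1 then (1 : ℝ) else 0) =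
      ((P' : ℝ) - P) * Ex (qq p x W P') (fun w =>
        if ∀ j, |sg w.1 j - sg w.2 j| * 2 ^ (P - a) ≤ 2 * s + 1 then (1 : ℝ) else 0) *
        Real.log 2 := by ring
  rw [u8]
  linarith

end Main

end PU

end Pool.KA
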