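import Pool.Agent.H50.K2.FRBc
import Pool.Agent.H50.K2.PU

/-!
# FRB: the rows of the chart coordinate, the data of `PU`, and the extraction of the frame
-/

set_option autoImplicit false

namespace Pool.K2S

open Finset Real
open Pool.Agent.H49.Ent Pool.Agent.H32.Dense Pool.STK Pool.KA Pool.KSAT Pool.KA.Win Pool.KA.TRC
open Rows

variable {m J : ℕ}

namespace FRB

/-- **The rows of the chart coordinate**, given the label of the plank. -/
theorem rows_chart : ∃ C₀ : ℝ, 0 ≤ C₀ ∧ ∀ (m J : ℕ) (G : Fam m J) (i₀ : Fin m)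
    (z : G.Ω → Fin m → ℝ) (w lam N K a h : ℕ) (e ρ : ℝ),
    w + lam ≤ J → N * K ≤ lam → G.Tm e →
    Det G.p (fun ω => (G.l ω, (G.T1 w ω, G.Z ω))) z →
    2 ≤ h → a + (h + 3) * 1 + h ≤ K →
    (∀ i < N, FF.Spn 0 h G.p (G.pj i₀ w (G.plab w lam i₀ z)).d
      (FF.rlab (G.pj i₀ w (G.plab w lam i₀ z)) K i) ρ) →
    N * (a * Real.log 2 - 4 * (a * Real.log 2) * ρ - 3 * e - C₀) -
        2 * (K * Real.log 2 + C₀) ≤
      CH G.p (fun ω => ⌊(2 : ℝ) ^ (w + lam) * G.x ω i₀⌋)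
        (fun ω => (G.plab w lam i₀ z ω, G.W ω)) := by
  obtain ⟨C₂, hC₂, h2⟩ := rows_thm 0
  refine ⟨C₂, hC₂, ?_⟩
  intro m J G i₀ z w lam N K a h e ρ hJ hN he hz hh haK hc₂
  have hp := G.isLaw.nonneg
  have hw : w ≤ J := by omega
  obtain ⟨S, hS⟩ : ∃ S, S = G.plab w lam i₀ z := ⟨_, rfl⟩
  have p2 : (G.pj i₀ w (G.plab w lam i₀ z)).Tm e :=
    Pj.pj_Tm G i₀ hw _ (FF.plab_Det G le_rfl hw hz) he
  have q2 := h2 (J - w) (G.pj i₀ w (G.plab w lam i₀ z)) K a h N 0 e ρ (by omega) p2 hh haK hc₂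
  have r2 : CH (G.pj i₀ w (G.plab w lam i₀ z)).p ((G.pj i₀ w (G.plab w lam i₀ z)).X (0 + N * K))
      (fun ω => ((G.pj i₀ w (G.plab w lam i₀ z)).X 0 ω,
        (G.pj i₀ w (G.plab w lam i₀ z)).W ω)) ≤
      CH G.p (fun ω => ⌊(2 : ℝ) ^ (w + lam) * G.x ω i₀⌋)
        (fun ω => (G.plab w lam i₀ z ω, G.W ω)) := by
    rw [Nat.zero_add]
    refine (Pj.pj_row G i₀ hw (G.plab w lam i₀ z) (N * K)).trans ?_
    refine le_trans (CH_mono_left hp (X' := fun ω => ⌊(2 : ℝ) ^ (w + lam) * G.x ω i₀⌋) ?_)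
      (CH_mono_cond hp ?_)
    · intro ω ω' _ _ e'
      have e1 : ⌊(2 : ℝ) ^ (w + lam) * G.x ω i₀⌋ = ⌊(2 : ℝ) ^ (w + lam) * G.x ω' i₀⌋ :=
        (Prod.ext_iff.mp e').1
      obtain ⟨k, hk⟩ := Nat.exists_eq_add_of_le (show N * K + w ≤ w + lam by omega)
      have e2 : (2 : ℝ) ^ (w + lam) = 2 ^ (N * K + w + k) := by rw [← hk]
      rw [e2] at e1
      exact Pool.STK.B58.floor_fine (N * K + w) k e1
    · intro ω ω' _ _ e'
      have e1 := Prod.ext_iff.mp e'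
      have e2 := Prod.ext_iff.mp e1.2
      have e3 := Prod.ext_iff.mp e2.2
      exact Prod.ext e3.1 (Prod.ext e1.1 e3.2)
  push_cast at q2
  linarith [q2, r2]

/-- The slopes of the label. -/
noncomputable def sgm (i₀ : Fin m) {Ω : Type} (z : Ω → Fin m → ℝ) (ω : Ω) (j : Fin m) : ℝ :=
  if j = i₀ then 1 else z ω j

/-- The sheet of the label. -/
noncomputable def sht (G : Fam m J) (w lam : ℕ) (i₀ : Fin m) (z : G.Ω → Fin m → ℝ) (ω : G.Ω)
    (j : Fin m) : ℝ :=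
  if j = i₀ then 0 else ((2 : ℝ) ^ (w + lam))⁻¹ * (G.pcl w lam i₀ z ω j +
    (G.plk w lam i₀ z).t ω * G.pvl lam i₀ z ω j)

/-- The data of `PU`. -/
theorem dat (G : Fam m J) {w lam s : ℕ} (hJ : w + lam ≤ J) (hs : s ≤ lam) {i₀ : Fin m}
    {z : G.Ω → Fin m → ℝ} (hz4 : ∀ ω, 0 < G.p ω → ∀ j, |z ω j| ≤ 4) :
    PU.Dat G.p G.x G.W (G.plab w lam i₀ z) (sgm i₀ z) (sht G w lam i₀ z) i₀ w
      (w + lam - s) (w + lam) 2 4 := by
  have hw : w ≤ J := by omega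
  have ht : ∀ ω ω', G.W ω = G.W ω' → (G.plk w lam i₀ z).t ω = (G.plk w lam i₀ z).t ω' := by
    intro ω ω' h
    have hT : G.T ω = G.T ω' := (Prod.ext_iff.mp h).1
    change ((G.T ω % 2 ^ (J - w) : ℕ) : ℝ) / 2 ^ (J - w) =
      ((G.T ω' % 2 ^ (J - w) : ℕ) : ℝ) / 2 ^ (J - w)
    rw [hT]
  refine ⟨G.isLaw, by omega, by omega, by norm_num, by norm_num, ?_, ?_, ?_, ?_⟩
  · intro ω ω' _ _ h
    have h1 := Prod.ext_iff.mp h
    have h2 := Prod.ext_iff.mp (Prod.ext_iff.mp h1.1).1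
    have e1 : z ω = z ω' := (Prod.ext_iff.mp h2.1).2
    have e2 : G.pcl w lam i₀ z ω = G.pcl w lam i₀ z ω' := (Prod.ext_iff.mp h2.2).1
    have e3 : G.pvl lam i₀ z ω = G.pvl lam i₀ z ω' := (Prod.ext_iff.mp h2.2).2
    have e4 := ht ω ω' h1.2
    refine Prod.ext ?_ ?_
    · funext j
      change sgm i₀ z ω j = sgm i₀ z ω' j
      unfold sgm
      rw [e1]
    · funext j
      change sht G w lam i₀ z ω j = sht G w lam i₀ z ω' j
      unfold sht
      rw [e2, e3, e4]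
  · intro ω hω j
    unfold sgm
    split_ifs
    · norm_num
    · exact hz4 ω hω j
  · intro ω _ j
    unfold sgm sht
    by_cases hj : j = i₀
    · rw [if_pos hj, if_pos hj, hj]
      have : G.x ω i₀ - 0 - 1 * G.x ω i₀ = 0 := by ring
      rw [this, abs_zero]
      positivity
    · rw [if_neg hj, if_neg hj]
      have h1 := Plk.plk_x G hw lam i₀ z ω j
      have h2 := Plk.x_mem G w lam i₀ z ω j
      unfold pco at h1
      rw [if_neg hj] at h1
      have p1 : (0 : ℝ) < 2 ^ (w + lam) := by positivity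
      have e1 : G.x ω j - ((2 : ℝ) ^ (w + lam))⁻¹ * (G.pcl w lam i₀ z ω j +
          (G.plk w lam i₀ z).t ω * G.pvl lam i₀ z ω j) - z ω j * G.x ω i₀ =
          (G.plk w lam i₀ z).x ω j / 2 ^ (w + lam) := by
        have h3 : (G.plk w lam i₀ z).x ω j = 2 ^ w * (2 ^ lam * (G.x ω j - z ω j * G.x ω i₀)) -
            (G.pcl w lam i₀ z ω j + (G.plk w lam i₀ z).t ω * G.pvl lam i₀ z ω j) := by linarith
        rw [h3, pow_add]
        field_simp
        ring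
      rw [e1, abs_div, abs_of_pos p1, abs_of_nonneg h2.1]
      exact div_le_div_of_nonneg_right h2.2.le p1.le
  · intro ω ω' _ _ h h'
    have h1 := Prod.ext_iff.mp (Prod.ext_iff.mp h).1
    have e2 : G.pcl w lam i₀ z ω = G.pcl w lam i₀ z ω' := (Prod.ext_iff.mp h1.2).1
    have e3 : G.pvl lam i₀ z ω = G.pvl lam i₀ z ω' := (Prod.ext_iff.mp h1.2).2
    have e4 := ht ω ω' h'
    have a1 := Plk.plk_x G hw lam i₀ z ω i₀
    have a2 := Plk.plk_x G hw lam i₀ z ω' i₀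
    have b1 := Plk.x_mem G w lam i₀ z ω i₀
    have b2 := Plk.x_mem G w lam i₀ z ω' i₀
    unfold pco at a1 a2
    rw [if_pos rfl] at a1 a2
    rw [← e2, ← e3, ← e4] at a2
    rw [le_div_iff₀ (by positivity : (0 : ℝ) < 2 ^ w)]
    have e5 : |G.x ω i₀ - G.x ω' i₀| * 2 ^ w = |2 ^ w * G.x ω i₀ - 2 ^ w * G.x ω' i₀| := by
      rw [← mul_sub, abs_mul, abs_of_pos (by positivity : (0 : ℝ) < 2 ^ w)]
      ring
    rw [e5, abs_le]
    constructor <;> linarith [b1.1, b1.2, b2.1, b2.2]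

/-- **Extraction.** If the rows `(w + lam - s, w + lam]` are not full and the rows of the chart
coordinate are full in the planks, then the slopes of the planks are functions of the point
rounded to `2 ^ (-(w + lam))`, up to `9 / 2 ^ (lam - s)`, with positive probability. -/
theorem extract (G : Fam m J) {w lam s : ℕ} (hJ : w + lam ≤ J) (hs : s ≤ lam) {i₀ : Fin m}
    {z : G.Ω → Fin m → ℝ} (hz4 : ∀ ω, 0 < G.p ω → ∀ j, |z ω j| ≤ 4) {d β c : ℝ}
    (hd : (lam : ℝ) * Real.log 2 - d ≤ CH G.p (fun ω => ⌊(2 : ℝ) ^ (w + lam) * G.x ω i₀⌋)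
        (fun ω => (G.plab w lam i₀ z ω, G.W ω)))
    (hn : CH G.p (G.X (w + lam)) (fun ω => (G.X (w + lam - s) ω, G.W ω)) ≤
      (2 - c) * (s * Real.log 2))
    (hnum : β * (s * Real.log 2) + 2 * d + 2 * Real.log ((J : ℝ) + 1) + PU.puC m 2 4 ≤
      c * (s * Real.log 2)) (hs0 : 0 < s) :
    ∃ ζ : (Fin m → ℤ) × (ℕ × G.ζ) → Fin m → ℝ, β ≤ Pe G.p (fun ω => ∀ j,
      |sgm i₀ z ω j - ζ (G.X (w + lam) ω, G.W ω) j| * 2 ^ (lam - s) ≤ 9) := by
  classical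
  have hL : 0 < Real.log 2 := Real.log_pos (by norm_num)
  have D := dat G hJ hs (i₀ := i₀) hz4
  have hsr : (0 : ℝ) < s := by exact_mod_cast hs0
  have key := PU.pu_thm D (d := d) (by
    have e1 : (((w + lam : ℕ) : ℝ) - w) * Real.log 2 = lam * Real.log 2 := by
      push_cast; ring
    rw [e1]
    exact hd)
  have e1 : ((w + lam : ℕ) : ℝ) - ((w + lam - s : ℕ) : ℝ) = s := by
    rw [Nat.cast_sub (by omega)]
    ring
  have e2 : w + lam - s - w = lam - s := by omega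
  rw [e1, e2] at key
  have e3 : Real.log (((lam - s : ℕ) : ℝ) + 1) ≤ Real.log ((J : ℝ) + 1) := by
    refine Real.log_le_log (by positivity) ?_
    have : ((lam - s : ℕ) : ℝ) ≤ J := by
      have : lam - s ≤ J := by omega
      exact_mod_cast this
    linarith
  have e4 : (2 : ℝ) * 4 + 1 = 9 := by norm_num
  rw [e4] at key
  have hn' : CH G.p (fun ω => fl (w + lam) (G.x ω)) (fun ω => (fl (w + lam - s) (G.x ω), G.W ω)) ≤
      (2 - c) * (s * Real.log 2) := hn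
  obtain ⟨E, hE⟩ : ∃ E, E = Ex (PU.qq G.p G.x G.W (w + lam)) (fun o =>
      if ∀ j, |sgm i₀ z o.1 j - sgm i₀ z o.2 j| * 2 ^ (lam - s) ≤ 9 then (1 : ℝ) else 0) :=
    ⟨_, rfl⟩
  rw [← hE] at key
  have hβ : β ≤ E := by
    have h1 : β * (s * Real.log 2) ≤ E * (s * Real.log 2) := by
      have h2 : s * Real.log 2 * E = E * (s * Real.log 2) := by ring
      linarith
    exact le_of_mul_le_mul_right h1 (by positivity)
  have hEP : E = Pe (cpy G.p (fun ω => (fl (w + lam) (G.x ω), G.W ω)))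
      (fun o => ∀ j, |sgm i₀ z o.1 j - sgm i₀ z o.2 j| * 2 ^ (lam - s) ≤ 9) := by
    rw [hE, Pe_eq]
    unfold Ex PU.qq
    refine Finset.sum_congr rfl fun o _ => ?_
    beta_reduce
    by_cases h : ∀ j, |sgm i₀ z o.1 j - sgm i₀ z o.2 j| * 2 ^ (lam - s) ≤ 9
    · rw [if_pos h, if_pos h, mul_one]
    · rw [if_neg h, if_neg h, mul_zero]
  rw [hEP] at hβ
  obtain ⟨ζ, hζ⟩ := exists_fn_of_cpy G.isLaw (sgm i₀ z)
    (fun ω => (fl (w + lam) (G.x ω), G.W ω))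
    (fun a b : Fin m → ℝ => ∀ j, |a j - b j| * 2 ^ (lam - s) ≤ 9) hβ
  exact ⟨ζ, hζ⟩

end FRB

end Pool.K2S
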