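import Pool.Agent.H50.K2.FRB

/-!
# FRB for straighter frames

The frames of (FRB) may be taken as straight as the fans at exact points are.
-/

set_option autoImplicit false

namespace Pool.K2S

open Finset Real
open Pool.Agent.H49.Ent Pool.Agent.H32.Dense Pool.STK Pool.KA Pool.KSAT

variable {Ω U V : Type} {m : ℕ}

/-- The slopes are at most `2` and known from the window up to `ρ`. -/
def RotB (i₀ : Fin m) (r ρ : ℝ) (pt : Ω → U) (wn : Ω → V) (d : Ω → Fin m → ℝ) (A : Ω → Prop) :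
    Prop :=
  ∃ (e n : U → Fin m → ℝ) (ζ : V → Fin m → ℝ), OnL i₀ r pt d A e n ∧
    (∀ ω, A ω → ∀ j, |e (pt ω) j| ≤ 2) ∧ ∀ ω, A ω → ∀ j, |e (pt ω) j - ζ (wn ω) j| ≤ ρ

theorem RotB.hered (i₀ : Fin m) (r ρ : ℝ) (pt : Ω → U) (wn : Ω → V) (d : Ω → Fin m → ℝ) :
    Hered (RotB i₀ r ρ pt wn d) :=
  fun _ _ h ⟨e, n, ζ, h1, h2, h3⟩ => ⟨e, n, ζ, h1.sub h, fun ω hω => h2 ω (h ω hω),
    fun ω hω => h3 ω (h ω hω)⟩

theorem RotB.rotU {i₀ : Fin m} {r ρ : ℝ} {pt : Ω → U} {wn : Ω → V} {d : Ω → Fin m → ℝ}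
    {A : Ω → Prop} (h : RotB i₀ r ρ pt wn d A) : RotU i₀ r ρ pt wn d A := by
  obtain ⟨e, n, ζ, h1, h2, h3⟩ := h
  exact ⟨e, n, ζ, h1, h3⟩

theorem RotB.mono {i₀ : Fin m} {r ρ r' ρ' : ℝ} {pt : Ω → U} {wn : Ω → V} {d : Ω → Fin m → ℝ}
    {A : Ω → Prop} (hr : r ≤ r') (h : ρ ≤ ρ') (hR : RotB i₀ r ρ pt wn d A) :
    RotB i₀ r' ρ' pt wn d A := by
  obtain ⟨e, n, ζ, h1, h2, h3⟩ := hR
  exact ⟨e, n, ζ, h1.mono hr, h2, fun ω hω j => (h3 ω hω j).trans h⟩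

/-- **(UPS)** If the frames of precision `2 ^ (-g)` are known from `wn` and if the fans at exact
points lie within `2 ^ (-h)` of lines, then the frames of precision `2 ^ (-h)` are known from `wn`
up to `2 ^ (-g)`, with a small macroscopic loss. -/
def UPSStmt : Prop :=
  ∀ (m : ℕ) (a R : ℝ), 1 < a → 0 < R → UBa m a R → ∀ h₁ y : ℝ, 0 < h₁ → 0 < y →
    ∀ (i₀ : Fin m) (V : ∀ (J : ℕ), Fam m J → Type)
      (wn : ∀ (J : ℕ) (F : Fam m J), F.Ω → V J F) (g h : ℕ → ℕ),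
    Claim (m := m) a R (fun J F A => Lb F i₀ ⌊h₁ * J⌋₊ A → Ln F i₀ (h J) A →
      RotU i₀ (1 / 2 ^ g J) (1 / 2 ^ g J) (K2S.Fam.pt F) (wn J F) F.d A → g J ≤ h J →
      ∀ g' : ℕ, (g' : ℝ) + y * J ≤ g J →
        RotB i₀ (1 / 2 ^ h J) (1 / 2 ^ g') (K2S.Fam.pt F) (wn J F) F.d A)

/-- **(PUX)** Frames are visible at the rows which are not full; straight frames. -/
def PUXStmt : Prop :=
  ∀ (m : ℕ) (a R : ℝ), 1 < a → 0 < R → UBa m a R → ∀ c h₁ y : ℝ, 0 < c → 0 < h₁ → 0 < y →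
    ∀ N : ℕ, 1 ≤ N → ∀ (i₀ : Fin m) (v l s : ℕ), 1 ≤ s → v + l + s ≤ N → ∀ h : ℕ → ℕ,
    Claim (m := m) a R (fun J F A =>
      CH (Pool.Agent.H49.Ent.cond F.p A True) (F.X ((v + l + s) * (J / N)))
        (fun ω => (F.X ((v + l) * (J / N)) ω, F.W ω)) ≤
        (2 - c) * ((s * (J / N) : ℕ) * Real.log 2) →
      Lb F i₀ ⌊h₁ * J⌋₊ A → Cn F i₀ ((l + s) * (J / N)) (v * (J / N)) A →
      Ln F i₀ (h J) A → l * (J / N) ≤ h J →
      ∀ g : ℕ, (g : ℝ) + y * J ≤ (l * (J / N) : ℕ) →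
        RotB i₀ (1 / 2 ^ h J) (1 / 2 ^ g) (K2S.Fam.pt F)
          (fun ω => (F.X ((v + l + s) * (J / N)) ω, F.W ω)) F.d A)

theorem ups_thm (h6 : AP6RStmt) : UPSStmt := by
  intro m a R ha hR hU h₁ y hh₁ hy i₀ V wn g h
  have ha0 : 0 < a := by linarith
  obtain ⟨x, hx⟩ : ∃ x, x = min (min (y / 4) (h₁ / 4)) (1 / 4) := ⟨_, rfl⟩
  have hx0 : 0 < x := by rw [hx]; positivity
  have hx1 : x ≤ y / 4 := by rw [hx]; exact (min_le_left _ _).trans (min_le_left _ _)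
  have hx2 : x ≤ h₁ / 4 := by rw [hx]; exact (min_le_left _ _).trans (min_le_right _ _)
  have hx3 : x ≤ 1 / 4 := by rw [hx]; exact min_le_right _ _
  obtain ⟨τ₂, hτ₂, J₅, hball⟩ := not_ball h6 (m := m) ha.le hR hU (x := x) hx0
  obtain ⟨τ, hτ⟩ : ∃ τ, τ = τ₂ / (7 * (1 + a)) := ⟨_, rfl⟩
  have hτ0 : 0 < τ := by rw [hτ]; positivity
  have hτe : (1 + a) * (5 * τ + 2 * τ) = τ₂ := by
    rw [hτ]
    field_simp
    ring
  refine Claim.one ⟨2, fun J F i => if i = 0 then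
      Ball (1 / 2 ^ ⌈x * J⌉₊) (K2S.Fam.pt F) F.d
      else RotB i₀ (1 / 2 ^ h J) (1 / 2 ^ ⌊(g J : ℝ) - y * J⌋₊) (K2S.Fam.pt F) (wn J F) F.d,
      ?_⟩ fun κ hκ => ?_
  · intro J F i
    by_cases hi : i = 0
    · simp only [hi, if_true]
      exact Ball.hered _ _ _
    · simp only [hi, if_false]
      exact RotB.hered _ _ _ _ _ _
  obtain ⟨J₁, hJ₁⟩ := exists_nat_gt (Real.log 2 / κ + J₅ + 8 / x + 1)
  refine ⟨τ, hτ0, J₁, ?_⟩
  intro J hJ F A hS hstab hLb hLn hRot hgh g' hg'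
  have hJr : (J₁ : ℝ) ≤ J := by exact_mod_cast hJ
  have hl2 : 0 < Real.log 2 := Real.log_pos (by norm_num)
  have t1 : 0 ≤ Real.log 2 / κ := by positivity
  have t2 : (0 : ℝ) ≤ J₅ := by positivity
  have t3 : 0 ≤ 8 / x := by positivity
  have j1 : Real.log 2 / κ < J := by linarith only [hJ₁, hJr, t1, t2, t3]
  have j2 : (J₅ : ℝ) ≤ J := by linarith only [hJ₁, hJr, t1, t2, t3]
  have j3 : 8 / x < J := by linarith only [hJ₁, hJr, t1, t2, t3]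
  rw [div_lt_iff₀ hκ] at j1
  rw [div_lt_iff₀ hx0] at j3
  have j2' : J ≥ J₅ := by exact_mod_cast j2
  obtain ⟨hTr, hMx, hRb, hPA⟩ := hS
  have hp := F.isLaw
  have hA0 : 0 < Pe F.p A := lt_of_lt_of_le (Real.exp_pos _) hPA
  have hJ0 : (0 : ℝ) ≤ J := Nat.cast_nonneg J
  obtain ⟨q, hq⟩ : ∃ q, q = ⌈x * (J : ℝ)⌉₊ := ⟨_, rfl⟩
  have hq1 : x * J ≤ q := by rw [hq]; exact Nat.le_ceil _
  have hq2 : (q : ℝ) < x * J + 1 := by rw [hq]; exact Nat.ceil_lt_add_one (by positivity)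
  have hxJ : x * J ≤ 1 / 4 * J := mul_le_mul_of_nonneg_right hx3 hJ0
  have hxJ1 : x * J ≤ y / 4 * J := mul_le_mul_of_nonneg_right hx1 hJ0
  have hxJ2 : x * J ≤ h₁ / 4 * J := mul_le_mul_of_nonneg_right hx2 hJ0
  have hJx : x * J = J * x := mul_comm _ _
  have hqJ : q ≤ J := by
    have : (q : ℝ) ≤ J := by linarith
    exact_mod_cast this
  have s1 : Stb F.p (κ * J) A (Ball (1 / 2 ^ q) (K2S.Fam.pt F) F.d) := by
    have := hstab 0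
    simpa [hq] using this
  have s2 : Stb F.p (κ * J) A (RotB i₀ (1 / 2 ^ h J) (1 / 2 ^ ⌊(g J : ℝ) - y * J⌋₊)
      (K2S.Fam.pt F) (wn J F) F.d) := by
    have := hstab 1
    simpa using this
  -- the balls
  have hnB : ¬ Ball (1 / 2 ^ q) (K2S.Fam.pt F) F.d A := by
    have e1 : Real.exp (-((2 * τ) * J)) ≤ Pe F.p A := by
      refine le_trans (Real.exp_le_exp.2 ?_) hPA
      have : 0 ≤ τ * J := by positivity
      linarith
    obtain ⟨h0, -, h2, -⟩ := max_res F ha.le hτ0.le (by linarith : (0 : ℝ) ≤ 2 * τ) hTr hMx hRb A e1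
    rw [hτe] at h2
    rintro ⟨vv, hv⟩
    refine hball J j2' (F.res A True h0) h2 q hqJ hq1 ⟨vv, ?_⟩
    intro ω hω j
    exact hv ω (FF.Pe_res h0 hω) j
  have hthin := s1.thin_lt hnB
  have hexp : Real.exp (-(κ * J)) ≤ 1 / 2 := by
    have h1 : Real.exp (-(κ * J)) ≤ Real.exp (-Real.log 2) := Real.exp_le_exp.2 (by linarith)
    rw [Real.exp_neg (Real.log 2), Real.exp_log (by norm_num)] at h1
    linarith
  have hthin2 : Pe F.p (fun ω => A ω ∧ Thin (1 / 2 ^ q) (K2S.Fam.pt F) F.d A ω) ≤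
      Pe F.p A / 2 := by
    have := mul_le_mul_of_nonneg_right hexp hA0.le
    linarith
  have hdiff := Pe_diff hthin2
  have hspr := spread_of_not_thin (1 / 2 ^ q) (K2S.Fam.pt F) F.d A
  -- the spread in the chart coordinate
  obtain ⟨e₀, n₀, hfr⟩ := hLb
  have hspi := (hfr.sub (B := fun ω => A ω ∧ ¬ Thin (1 / 2 ^ q) (K2S.Fam.pt F) F.d A ω)
    (fun ω hω => hω.1)).spreadI hspr
  have hflo : q + 3 ≤ ⌊h₁ * (J : ℝ)⌋₊ := by
    refine Nat.le_floor ?_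
    push_cast
    linarith
  have hs1 : (1 : ℝ) / 2 ^ (q + 1) ≤ 1 / 2 ^ q - 2 * (1 / 2 ^ ⌊h₁ * (J : ℝ)⌋₊) := by
    have e1 : (1 : ℝ) / 2 ^ ⌊h₁ * (J : ℝ)⌋₊ ≤ 1 / 2 ^ (q + 2) :=
      one_div_le_one_div_of_le (by positivity) (pow_le_pow_right₀ (by norm_num) (by omega))
    have e2 : (1 : ℝ) / 2 ^ q = 4 * (1 / 2 ^ (q + 2)) := by
      rw [pow_add]
      field_simp
      norm_num
    have e3 : (1 : ℝ) / 2 ^ (q + 1) = 2 * (1 / 2 ^ (q + 2)) := by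
      rw [pow_add, pow_add]
      field_simp
    rw [e2, e3]
    linarith
  have hspi' : SpreadI i₀ (1 / 2 ^ (q + 1)) (K2S.Fam.pt F) F.d
      (fun ω => A ω ∧ ¬ Thin (1 / 2 ^ q) (K2S.Fam.pt F) F.d A ω) := by
    intro ω hω
    obtain ⟨ω', ω'', a1, a2, a3, a4, a5⟩ := hspi ω hω
    exact ⟨ω', ω'', a1, a2, a3, a4, lt_of_le_of_lt hs1 a5⟩
  obtain ⟨e, n, hen⟩ := hLn
  obtain ⟨ζ, hζ⟩ := (RotU.hered _ _ _ _ _ _ A _ (fun ω hω => hω.1) hRot).frame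
    (hen.sub (B := fun ω => A ω ∧ ¬ Thin (1 / 2 ^ q) (K2S.Fam.pt F) F.d A ω) (fun ω hω => hω.1))
    hspi' (by positivity)
  -- the numbers
  have hg'2 : g' ≤ ⌊(g J : ℝ) - y * J⌋₊ := Nat.le_floor (by linarith)
  suffices hmain : RotB i₀ (1 / 2 ^ h J) (1 / 2 ^ ⌊(g J : ℝ) - y * J⌋₊) (K2S.Fam.pt F)
      (wn J F) F.d A by
    exact hmain.mono le_rfl (one_div_le_one_div_of_le (by positivity)
      (pow_le_pow_right₀ (by norm_num) hg'2))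
  have hyJ : 0 ≤ y * J := by positivity
  have hgq : ⌊(g J : ℝ) - y * J⌋₊ + (q + 4) ≤ g J := by
    have h1 : (0 : ℝ) ≤ (g J : ℝ) - y * J := by
      have : (0 : ℝ) ≤ g' := Nat.cast_nonneg _
      linarith
    have h2 := Nat.floor_le h1
    have h3 : ((⌊(g J : ℝ) - y * J⌋₊ + (q + 4) : ℕ) : ℝ) ≤ g J := by
      push_cast
      linarith
    exact_mod_cast h3
  refine s2.of_sub (B := fun ω => A ω ∧ ¬ Thin (1 / 2 ^ q) (K2S.Fam.pt F) F.d A ω)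
    (fun ω hω => hω.1) ?_ ⟨e, n, ζ, hen.sub (fun ω hω => hω.1), fun ω hω j => ?_,
      fun ω hω j => ?_⟩
  · refine le_trans ?_ hdiff
    refine mul_le_mul_of_nonneg_right (Real.exp_le_exp.2 ?_) hA0.le
    linarith
  · refine OnL.bound (hfr.sub (B := fun ω => A ω ∧ ¬ Thin (1 / 2 ^ q) (K2S.Fam.pt F) F.d A ω)
      (fun ω hω => hω.1)) (hen.sub (fun ω hω => hω.1)) hspi' (by positivity) ?_ ω hω j
    have e1 : (1 : ℝ) / 2 ^ ⌊h₁ * (J : ℝ)⌋₊ ≤ 1 / 2 ^ (q + 3) :=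
      one_div_le_one_div_of_le (by positivity) (pow_le_pow_right₀ (by norm_num) hflo)
    have e2 : (1 : ℝ) / 2 ^ h J ≤ 1 / 2 ^ (q + 3) :=
      one_div_le_one_div_of_le (by positivity) (pow_le_pow_right₀ (by norm_num) (by omega))
    have e3 : (1 : ℝ) / 2 ^ (q + 1) = 4 * (1 / 2 ^ (q + 3)) := by
      rw [pow_add, pow_add]
      field_simp
      norm_num
    rw [e3]
    linarith
  · refine (hζ ω hω j).trans ?_
    have p1 : (1 : ℝ) / 2 ^ h J ≤ 1 / 2 ^ g J :=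
      one_div_le_one_div_of_le (by positivity) (pow_le_pow_right₀ (by norm_num) hgh)
    have p2 : (1 : ℝ) / 2 ^ g J ≤ 1 / 2 ^ (⌊(g J : ℝ) - y * J⌋₊ + (q + 4)) :=
      one_div_le_one_div_of_le (by positivity) (pow_le_pow_right₀ (by norm_num) hgq)
    have p3 : (1 : ℝ) / 2 ^ (⌊(g J : ℝ) - y * J⌋₊ + (q + 4)) =
        1 / 2 ^ ⌊(g J : ℝ) - y * J⌋₊ * (1 / 2 ^ q) / 16 := by
      rw [pow_add, pow_add]
      field_simp
      norm_num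
    have p4 : (2 * ((1 : ℝ) / 2 ^ g J) + 2 * (1 / 2 ^ h J)) / (1 / 2 ^ (q + 1)) ≤
        1 / 2 ^ ⌊(g J : ℝ) - y * J⌋₊ / 2 := by
      rw [div_le_iff₀ (by positivity)]
      have e1 : (1 : ℝ) / 2 ^ (q + 1) = 1 / 2 ^ q / 2 := by
        rw [pow_succ]
        field_simp
      rw [e1]
      have e2 : (1 : ℝ) / 2 ^ ⌊(g J : ℝ) - y * J⌋₊ / 2 * (1 / 2 ^ q / 2) =
          4 * (1 / 2 ^ ⌊(g J : ℝ) - y * J⌋₊ * (1 / 2 ^ q) / 16) := by ring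
      rw [e2, ← p3]
      linarith
    have p5 : (1 : ℝ) / 2 ^ g J ≤ 1 / 2 ^ ⌊(g J : ℝ) - y * J⌋₊ / 2 := by
      have e3 : (1 : ℝ) / 2 ^ q ≤ 1 := by
        rw [div_le_one (by positivity)]
        exact one_le_pow₀ (by norm_num)
      have e4 : (0 : ℝ) < 1 / 2 ^ ⌊(g J : ℝ) - y * J⌋₊ := by positivity
      have e5 := mul_le_mul_of_nonneg_left e3 e4.le
      rw [p3] at p2
      linarith
    linarith

theorem pux_thm (hF : FRBStmt) (hU : UPSStmt) : PUXStmt := by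
  intro m a R ha hR hUB c h₁ y hc hh₁ hy N hN i₀ v l s hs hvN h
  obtain ⟨y', hy'⟩ : ∃ y', y' = y / 2 := ⟨_, rfl⟩
  have hy'0 : 0 < y' := by rw [hy']; positivity
  obtain ⟨J₂, hJ₂⟩ := exists_nat_gt (8 / y)
  refine Claim.mono (max J₂ (4 * N)) ?_ ((hF m a R ha hR hUB c h₁ hc hh₁ N hN i₀ v l s hs hvN).and
    (hU m a R ha hR hUB h₁ y' hh₁ hy'0 i₀ (fun J F => (Fin m → ℤ) × (ℕ × F.ζ))
      (fun J F ω => (F.X ((v + l + s) * (J / N)) ω, F.W ω))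
      (fun J => l * (J / N) - 4) h))
  rintro J hJ F A ⟨hA, hB⟩ hCH hLb hCn hLn hlh g hg
  have hJ2 : J₂ ≤ J := (le_max_left _ _).trans hJ
  have hJ2r : (J₂ : ℝ) ≤ J := by exact_mod_cast hJ2
  have hyJ : 8 < J * y := by
    rw [← div_lt_iff₀ hy]
    exact hJ₂.trans_le hJ2r
  have hg0 : (0 : ℝ) ≤ g := Nat.cast_nonneg _
  have hl4 : 4 ≤ l * (J / N) := by
    have : ((4 : ℕ) : ℝ) ≤ ((l * (J / N) : ℕ) : ℝ) := by
      push_cast
      push_cast at hg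
      linarith [mul_comm (J : ℝ) y]
    exact_mod_cast this
  refine hB hLb hLn (hA hCH hLb hCn (l * (J / N) - 4) (by omega)) (by omega) g ?_
  rw [Nat.cast_sub hl4, hy']
  push_cast at hg ⊢
  linarith [mul_comm (J : ℝ) y]

theorem ups_all : UPSStmt := ups_thm ap6r_all

theorem pux_all : PUXStmt := pux_thm frb_all ups_all

end Pool.K2S
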